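import Mathlib
import Pool.Agent.Y820.LB.Adapt2

/-!
# Determinants of matrices of dominated functions, and finite-rank perturbations
-/

set_option autoImplicit false

namespace Q262.FR

open MeasureTheory Polynomial
open Pool.Agent.H261R2.CM
open Pool.Agent.Y820.LB

noncomputable section

theorem dom_sum {ι : Type*} (s : Finset ι) (H : ι → ℝ → ℝ) (c : ℝ)
    (h : ∀ i ∈ s, Dom (H i) c) : Dom (fun t => ∑ i ∈ s, H i t) (s.card * c) := by
  classical
  induction s using Finset.induction_on with
  | empty => simpa using dom_zero (le_refl (0:ℝ))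
  | insert a s ha ih =>
    have h1 := (h a (Finset.mem_insert_self _ _)).add
      (ih fun i hi => h i (Finset.mem_insert_of_mem hi))
    have h2 : (fun t => ∑ i ∈ insert a s, H i t) = fun t => H a t + ∑ i ∈ s, H i t := by
      ext t
      rw [Finset.sum_insert ha]
    rw [h2, Finset.card_insert_of_notMem ha]
    refine h1.le (le_of_eq ?_)
    push_cast
    ring

/-- the determinant of `1 - X` for a matrix `X` of dominated functions -/
theorem dom_det {m : ℕ} (X : ℝ → Matrix (Fin m) (Fin m) ℂ) (c : ℝ)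
    (h : ∀ i j, Dom (fun t => ‖X t i j‖) c) :
    Dom (fun t => ‖(1 - X t).det‖)
      (Real.log (2 * (m.factorial : ℝ)) + m * (m * (m * c))) := by
  have h1 : Dom (fun t => ∑ i, ∑ j, ‖X t i j‖) (m * (m * c)) := by
    have h2 := dom_sum (Finset.univ : Finset (Fin m)) (fun i t => ∑ j, ‖X t i j‖) (m * c)
      (fun i _ => by
        have h3 := dom_sum (Finset.univ : Finset (Fin m)) (fun j t => ‖X t i j‖) c
          (fun j _ => h i j)
        simpa using h3)
    simpa using h2
  obtain ⟨g, hg1, hg2, hg3⟩ := h1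
  refine ⟨fun t => Real.log (2 * (m.factorial : ℝ)) + m * g t,
    intervalIntegrable_const.add (hg1.const_mul _), ?_, ?_⟩
  · filter_upwards [hg2] with t ht
    obtain ⟨h4, h5⟩ := ht
    refine ⟨norm_nonneg _, ?_⟩
    set S := ∑ i, ∑ j, ‖X t i j‖ with hS
    have h6 : ∀ i j, (NormedField.toAbsoluteValue ℂ) ((1 - X t) i j) ≤ 1 + S := by
      intro i j
      change ‖(1 - X t) i j‖ ≤ 1 + S
      rw [Matrix.sub_apply]
      refine (norm_sub_le _ _).trans (add_le_add ?_ ?_)
      · rw [Matrix.one_apply]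
        split_ifs
        · simp
        · simp
      · have h7 : ‖X t i j‖ ≤ ∑ j, ‖X t i j‖ :=
          Finset.single_le_sum (f := fun j => ‖X t i j‖) (fun j _ => norm_nonneg _)
            (Finset.mem_univ j)
        have h8 : ∑ j, ‖X t i j‖ ≤ S :=
          Finset.single_le_sum (f := fun i => ∑ j, ‖X t i j‖)
            (fun i _ => Finset.sum_nonneg fun j _ => norm_nonneg _) (Finset.mem_univ i)
        exact h7.trans h8
    have h9 := Matrix.det_le h6
    change ‖(1 - X t).det‖ ≤ _ at h9
    rw [Fintype.card_fin, nsmul_eq_mul] at h9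
    have h10 : (1:ℝ) ≤ (m.factorial : ℝ) := by
      exact_mod_cast Nat.one_le_iff_ne_zero.mpr (Nat.factorial_ne_zero m)
    have h11 : (1:ℝ) ≤ (1 + S) ^ m := one_le_pow₀ (by linarith)
    have h12 : 1 + ‖(1 - X t).det‖ ≤ 2 * (m.factorial : ℝ) * (1 + S) ^ m := by
      nlinarith
    refine (Real.log_le_log (by positivity) h12).trans ?_
    rw [Real.log_mul (by positivity) (by positivity), Real.log_pow]
    have h13 : (m:ℝ) * Real.log (1 + S) ≤ m * g t :=
      mul_le_mul_of_nonneg_left h5 (Nat.cast_nonneg m)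
    linarith
  · rw [intervalIntegral.integral_add intervalIntegrable_const (hg1.const_mul _),
      intervalIntegral.integral_const_mul]
    have h14 : (m:ℝ) * ∫ t in (0:ℝ)..1, g t ≤ m * (m * (m * c)) :=
      mul_le_mul_of_nonneg_left hg3 (Nat.cast_nonneg m)
    simp only [intervalIntegral.integral_const, sub_zero, smul_eq_mul, one_mul]
    linarith

variable {n : ℕ}

/-- an operator of rank at most `r` is a sum of `r` operators of rank one -/
theorem exists_factor (K : Matrix (Fin n) (Fin n) ℂ) (N : ℝ) (hN : 0 ≤ N)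
    (hK : ∀ x, ‖act K x‖ ≤ N * ‖x‖) :
    ∃ b c : Fin K.rank → EuclideanSpace ℂ (Fin n), (∀ j, ‖b j‖ = 1) ∧ (∀ j, ‖c j‖ ≤ N) ∧
      ∀ x, act K x = ∑ j, inner ℂ (c j) x • b j := by
  have hrank : Module.finrank ℂ (LinearMap.range (act K).toLinearMap) = K.rank := by
    rw [Matrix.rank_eq_finrank_range_toLin K (EuclideanSpace.basisFun (Fin n) ℂ).toBasis
      (EuclideanSpace.basisFun (Fin n) ℂ).toBasis]
    rw [← Matrix.toEuclideanLin_eq_toLin_orthonormal]
    rfl
  set V := LinearMap.range (act K).toLinearMap with hV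
  let b0 := (stdOrthonormalBasis ℂ V).reindex (finCongr hrank)
  have hmem : ∀ x, act K x ∈ V := fun x => ⟨x, rfl⟩
  have hop : ‖act K‖ ≤ N := ContinuousLinearMap.opNorm_le_bound _ hN hK
  refine ⟨fun j => (b0 j : EuclideanSpace ℂ (Fin n)),
    fun j => ContinuousLinearMap.adjoint (act K) (b0 j : EuclideanSpace ℂ (Fin n)), ?_, ?_, ?_⟩
  · intro j
    exact b0.orthonormal.1 j
  · intro j
    have h2 : ‖(b0 j : EuclideanSpace ℂ (Fin n))‖ = 1 := b0.orthonormal.1 j
    calc ‖ContinuousLinearMap.adjoint (act K) (b0 j : EuclideanSpace ℂ (Fin n))‖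
        ≤ ‖ContinuousLinearMap.adjoint (act K)‖ * ‖(b0 j : EuclideanSpace ℂ (Fin n))‖ :=
          ContinuousLinearMap.le_opNorm _ _
      _ ≤ N := by
          rw [LinearIsometryEquiv.norm_map, h2, mul_one]
          exact hop
  · intro x
    have h1 := b0.sum_repr' ⟨act K x, hmem x⟩
    have h2 := congrArg (fun v : V => (v : EuclideanSpace ℂ (Fin n))) h1
    simp only [Submodule.coe_sum, Submodule.coe_smul] at h2
    rw [← h2]
    refine Finset.sum_congr rfl fun j _ => ?_
    rw [ContinuousLinearMap.adjoint_inner_left]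
    rfl

/-- the determinant of a finite-rank perturbation -/
theorem det_sub_factor {m : ℕ} (M K : Matrix (Fin n) (Fin n) ℂ) (hM : M.det ≠ 0)
    (b c : Fin m → EuclideanSpace ℂ (Fin n))
    (hK : ∀ x, act K x = ∑ j, inner ℂ (c j) x • b j) :
    (M - K).det = M.det * (1 - Matrix.of fun i j => inner ℂ (c i) (act M⁻¹ (b j))).det := by
  set B : Matrix (Fin n) (Fin m) ℂ := Matrix.of fun i j => b j i with hB
  set C : Matrix (Fin m) (Fin n) ℂ := Matrix.of fun j i => star (c j i) with hC
  have hKBC : K = B * C := by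
    ext i k
    have h1 := congrArg (fun v : EuclideanSpace ℂ (Fin n) => v i)
      (hK (EuclideanSpace.single k (1:ℂ)))
    simp only [act_apply] at h1
    have h2 : ∑ j, K i j * (EuclideanSpace.single k (1:ℂ) : EuclideanSpace ℂ (Fin n)) j = K i k := by
      rw [Finset.sum_eq_single k]
      · simp
      · intro j _ hj
        simp [hj]
      · intro h
        exact absurd (Finset.mem_univ k) h
    rw [h2] at h1
    rw [h1, Matrix.mul_apply]
    rw [WithLp.ofLp_sum, Finset.sum_apply]
    refine Finset.sum_congr rfl fun j _ => ?_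
    rw [hB, hC, Matrix.of_apply, Matrix.of_apply]
    have h3 : inner ℂ (c j) (EuclideanSpace.single k (1:ℂ)) = star (c j k) := by
      rw [EuclideanSpace.inner_single_right]
      simp
    simp only [PiLp.smul_apply, smul_eq_mul]
    rw [h3, mul_comm]
  have hU : IsUnit M.det := isUnit_iff_ne_zero.mpr hM
  have h1 : M - K = M * (1 - (M⁻¹ * B) * C) := by
    rw [mul_sub, mul_one, Matrix.mul_assoc, ← Matrix.mul_assoc M, Matrix.mul_nonsing_inv _ hU,
      Matrix.one_mul, hKBC]
  have h2 : C * (M⁻¹ * B) = Matrix.of fun i j => inner ℂ (c i) (act M⁻¹ (b j)) := by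
    ext i j
    rw [Matrix.of_apply, act_inner, Matrix.mul_apply]
    refine Finset.sum_congr rfl fun k _ => ?_
    rw [Matrix.mul_apply, Finset.mul_sum]
    refine Finset.sum_congr rfl fun l _ => ?_
    rw [hB, hC, Matrix.of_apply, Matrix.of_apply]
    ring
  rw [h1, Matrix.det_mul, Matrix.det_one_sub_mul_comm, h2]

end

end Q262.FR
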