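import Mathlib
import Pool.Agent.Q262.FR.Det
import Pool.Agent.Y820.LB.Closure

/-!
# Finite-rank perturbations of contractions with integral characteristic polynomials
-/

set_option autoImplicit false

namespace Q262.FR

open MeasureTheory Polynomial Filter Topology
open Pool.Agent.H261R2.CM
open Pool.Agent.Y820.LB

noncomputable section

variable {n : ℕ}

theorem char_eval (A : Matrix (Fin n) (Fin n) ℂ) (z : ℂ) :
    A.charpoly.eval z = (z • (1 : Matrix (Fin n) (Fin n) ℂ) - A).det := by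
  rw [Matrix.eval_charpoly, Matrix.smul_one_eq_diagonal]
  rfl

/-- the characteristic polynomial of a contraction has Mahler measure one -/
theorem mahler_ctr (W : Matrix (Fin n) (Fin n) ℂ) (hW : Ctr W) :
    W.charpoly.mahlerMeasure = 1 := by
  rw [mahlerMeasure_eq_leadingCoeff_mul_prod_roots, (Matrix.charpoly_monic W).leadingCoeff,
    norm_one, one_mul]
  refine Multiset.prod_eq_one fun y hy => ?_
  rw [Multiset.mem_map] at hy
  obtain ⟨z, hz, rfl⟩ := hy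
  refine max_eq_left (not_lt.mp fun hz1 => ?_)
  have hz0 : z ≠ 0 := by
    rintro rfl
    rw [norm_zero] at hz1
    linarith
  have h1 := (mem_roots (Matrix.charpoly_monic W).ne_zero).mp hz
  rw [IsRoot.def, char_eval] at h1
  have h2 : z • (1 : Matrix (Fin n) (Fin n) ℂ) - W = z • (1 - z⁻¹ • W) := by
    rw [smul_sub, smul_smul, mul_inv_cancel₀ hz0, one_smul]
  rw [h2, Matrix.det_smul] at h1
  rcases mul_eq_zero.mp h1 with h3 | h3
  · exact pow_ne_zero _ hz0 h3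
  · refine det_ne_of_ctr W hW z⁻¹ ?_ h3
    rw [norm_inv]
    exact inv_lt_one_of_one_lt₀ hz1

/-- the constant of the domination -/
def cst (r : ℕ) (c0 : ℝ) : ℝ := Real.log (2 * (r.factorial : ℝ)) + r * (r * (r * c0))

/-- all matrix elements of the resolvent of `W` are dominated -/
def ResDom (W : Matrix (Fin n) (Fin n) ℂ) (N c0 : ℝ) : Prop :=
  ∀ s t : EuclideanSpace ℂ (Fin n), ‖s‖ * ‖t‖ ≤ N →
    Dom (fun τ => ‖inner ℂ t (act (ez τ • (1 : Matrix (Fin n) (Fin n) ℂ) - W)⁻¹ s)‖) c0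

theorem pair_dom (r : ℕ) (N c0 : ℝ) (hN : 0 ≤ N) (hc0' : 0 ≤ c0)
    (W A : Matrix (Fin n) (Fin n) ℂ) (hW : ResDom W N c0)
    (hK : ∀ x, ‖act (A - W) x‖ ≤ N * ‖x‖) (hr : (A - W).rank ≤ r) :
    ∃ F : ℝ → ℂ, Dom (fun t => ‖F t‖) (cst r c0) ∧
      ∀ᵐ t : ℝ, A.charpoly.eval (ez t) = W.charpoly.eval (ez t) * F t := by
  obtain ⟨b, c, hb, hc, hfac⟩ := exists_factor (A - W) N hN hK
  refine ⟨fun t => (1 - Matrix.of fun i j => inner ℂ (c i)
    (act (ez t • (1 : Matrix (Fin n) (Fin n) ℂ) - W)⁻¹ (b j))).det, ?_, ?_⟩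
  · refine (dom_det (fun t => Matrix.of fun i j => inner ℂ (c i)
      (act (ez t • (1 : Matrix (Fin n) (Fin n) ℂ) - W)⁻¹ (b j))) c0 fun i j => ?_).le ?_
    · simp only [Matrix.of_apply]
      refine hW (b j) (c i) ?_
      rw [hb j, one_mul]
      exact hc i
    · have hm : ((A - W).rank : ℝ) ≤ r := by exact_mod_cast hr
      have hm0 : (0:ℝ) ≤ ((A - W).rank : ℝ) := Nat.cast_nonneg _
      have hf : (((A - W).rank.factorial : ℕ) : ℝ) ≤ (r.factorial : ℝ) := by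
        exact_mod_cast Nat.factorial_le hr
      have hf0 : (0:ℝ) < (((A - W).rank.factorial : ℕ) : ℝ) := by
        exact_mod_cast Nat.factorial_pos _
      have h1 : Real.log (2 * (((A - W).rank.factorial : ℕ) : ℝ)) ≤
          Real.log (2 * (r.factorial : ℝ)) :=
        Real.log_le_log (by positivity) (by linarith)
      have h2 : ((A - W).rank : ℝ) * c0 ≤ r * c0 := mul_le_mul_of_nonneg_right hm hc0'
      have h3 : ((A - W).rank : ℝ) * (((A - W).rank : ℝ) * c0) ≤ r * (r * c0) :=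
        mul_le_mul hm h2 (by positivity) (by positivity)
      have h4 : ((A - W).rank : ℝ) * (((A - W).rank : ℝ) * (((A - W).rank : ℝ) * c0)) ≤
          r * (r * (r * c0)) := mul_le_mul hm h3 (by positivity) (by positivity)
      unfold cst
      linarith
  · filter_upwards [ae_det_ne W] with t ht
    rw [char_eval, char_eval]
    have h1 : ez t • (1 : Matrix (Fin n) (Fin n) ℂ) - A =
        (ez t • (1 : Matrix (Fin n) (Fin n) ℂ) - W) - (A - W) := by abel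
    rw [h1]
    exact det_sub_factor _ _ ht b c hfac

theorem c0_nonneg (a N : ℝ) (ha : 0 ≤ a) (hN : 0 ≤ N) :
    0 ≤ a * (Real.log 2 + Real.log (1 + N)) := by
  have h1 := Real.log_nonneg (by linarith : (1:ℝ) ≤ 1 + N)
  have h2 := Real.log_nonneg (by norm_num : (1:ℝ) ≤ 2)
  exact mul_nonneg ha (by linarith)

theorem ctr_res (W : Matrix (Fin n) (Fin n) ℂ) (N : ℝ) (hW : Ctr W) :
    ResDom W N (4 * (Real.log 2 + Real.log (1 + N))) :=
  fun s t hst => dom_in W hW s t N hst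

/-- an orthogonal splitting into a contraction and an expansion -/
structure AdC (B E : Matrix (Fin n) (Fin n) ℂ) : Prop where
  herm : E.conjTranspose = E
  idem : E * E = E
  comm : B * E = E * B
  ctr : ∀ x, ‖act (B * E) x‖ ≤ ‖act E x‖
  exp : ∀ x, ‖act (1 - E) x‖ ≤ ‖act (B * (1 - E)) x‖

section

variable {B E : Matrix (Fin n) (Fin n) ℂ}

theorem AdC.ctrE (h : AdC B E) : Ctr E := by
  intro x
  have h1 := split_orth E h.herm h.idem x
  have h2 : ‖act E x‖ ^ 2 ≤ ‖x‖ ^ 2 := by rw [h1]; linarith [sq_nonneg ‖act (1 - E) x‖]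
  exact (sq_le_sq₀ (norm_nonneg _) (norm_nonneg _)).mp h2

theorem AdC.ctrE' (h : AdC B E) : Ctr (1 - E) := by
  intro x
  have h1 := split_orth E h.herm h.idem x
  have h2 : ‖act (1 - E) x‖ ^ 2 ≤ ‖x‖ ^ 2 := by rw [h1]; linarith [sq_nonneg ‖act E x‖]
  exact (sq_le_sq₀ (norm_nonneg _) (norm_nonneg _)).mp h2

theorem AdC.ctrIn (h : AdC B E) : Ctr (B * E) := fun x => (h.ctr x).trans (h.ctrE x)

theorem AdC.expOut (h : AdC B E) (x : EuclideanSpace ℂ (Fin n)) :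
    ‖x‖ ≤ ‖act (B * (1 - E) + E) x‖ := by
  have h1 : inner ℂ (act (B * (1 - E)) x) (act E x) = (0 : ℂ) := by
    refine inner_eq_zero_of _ _ ?_ x
    have h2 : E * (B * (1 - E)) = 0 := by
      rw [← mul_assoc, ← h.comm, mul_assoc, Matrix.mul_sub, h.idem, mul_one, sub_self, mul_zero]
    have h3 : (B * (1 - E)).conjTranspose * E = (E * (B * (1 - E))).conjTranspose := by
      rw [Matrix.conjTranspose_mul E, h.herm]
    rw [h3, h2, Matrix.conjTranspose_zero]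
  have h4 := norm_sq_add _ _ h1
  rw [← act_add] at h4
  have h5 := split_orth E h.herm h.idem x
  have h6 : ‖act (1 - E) x‖ ^ 2 ≤ ‖act (B * (1 - E)) x‖ ^ 2 :=
    pow_le_pow_left₀ (norm_nonneg _) (h.exp x) 2
  have h7 : ‖x‖ ^ 2 ≤ ‖act (B * (1 - E) + E) x‖ ^ 2 := by rw [h4, h5]; linarith
  exact (sq_le_sq₀ (norm_nonneg _) (norm_nonneg _)).mp h7

theorem AdC.inv_ctr (h : AdC B E) :
    Ctr (B * (1 - E) + E)⁻¹ ∧ (B * (1 - E) + E)⁻¹ * (B * (1 - E) + E) = 1 := by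
  have h1 : IsUnit (B * (1 - E) + E).det := isUnit_iff_ne_zero.mpr (det_ne_of_exp _ h.expOut)
  refine ⟨fun x => ?_, Matrix.nonsing_inv_mul _ h1⟩
  have h2 := h.expOut (act (B * (1 - E) + E)⁻¹ x)
  rwa [← act_mul, Matrix.mul_nonsing_inv _ h1, act_one] at h2

theorem AdC.res (h : AdC B E) (L : ℝ) : ResDom B L (8 * (Real.log 2 + Real.log (1 + L))) := by
  intro s t hst
  have k1 := dom_in (B * E) h.ctrIn (act E s) t L
    (le_trans (mul_le_mul_of_nonneg_right (h.ctrE s) (norm_nonneg _)) hst)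
  have k2 := dom_out (B * (1 - E) + E) _ h.inv_ctr.1 h.inv_ctr.2 (act (1 - E) s) t L
    (le_trans (mul_le_mul_of_nonneg_right (h.ctrE' s) (norm_nonneg _)) hst)
  refine ((k1.add k2).le (by linarith)).mono ?_
  filter_upwards [ae_det_ne (B * E), ae_det_ne (B * (1 - E) + E)] with τ h1 h2
  refine ⟨norm_nonneg _, ?_⟩
  rw [inv_split B E h.idem h.comm _ h1 h2, act_add, act_mul, act_mul, inner_add_right]
  exact norm_add_le _ _

end

/-- coprime pairs of bounded height whose second member has Mahler measure one -/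
theorem pair_cyc (K : ℝ) : ∃ (μ : ℝ) (L : ℕ), 1 < μ ∧ ∀ A B : ℤ[X], A ≠ 0 → B ≠ 0 →
    IsRelPrime A B → m1 B = 1 → mx1 A B ≤ K → (m1 A = 1 ∨ μ ≤ m1 A) ∧
      ∃ Φ : ℤ[X], Φ ≠ 0 ∧ m1 Φ = 1 ∧ len (A * Φ) ≤ L := by
  obtain ⟨μ, hμ, hgap1⟩ := gap_one K
  have hstr : ∃ L : ℕ, ∀ A B : ℤ[X], A ≠ 0 → B ≠ 0 → IsRelPrime A B → m1 B = 1 → mx1 A B ≤ K →
      ∃ Φ : ℤ[X], Φ ≠ 0 ∧ m1 Φ = 1 ∧ len (A * Φ) ≤ L := by
    by_contra hcon
    push Not at hcon
    choose A B hA hB hAB hm hK hno using hcon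
    obtain ⟨k, e, C, D, hk, hC, hD, hCD, he, hrel, _, _⟩ := pairs_compact_general A B hA hB hAB K hK
    obtain ⟨Q, hQ, hQlim⟩ := limit_general C D hC hD hCD (hyperfilter ℕ) e he A B hA hB hAB hrel
    obtain ⟨c, hc, hgap⟩ := spec_gap D hD
    have hle : (hyperfilter ℕ : Filter ℕ) ≤ atTop := by
      rw [← Nat.cofinite_eq_atTop]
      exact hyperfilter_le_cofinite
    set L1 : ℤ := ∑ s ∈ C.support, |C.coeff s| with hL1
    have hbig : ∀ᶠ n : ℕ in (hyperfilter ℕ : Filter ℕ), L1 ≤ (n : ℤ) := by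
      have h1 : ∀ᶠ n : ℕ in atTop, L1 ≤ (n : ℤ) := by
        filter_upwards [eventually_ge_atTop L1.toNat] with n hn
        have := Int.self_le_toNat L1
        omega
      exact hle h1
    have hsmall : ∀ᶠ n in (hyperfilter ℕ : Filter ℕ), Real.log (m1 (Q n)) < Real.log c :=
      hQlim.eventually_lt_const (Real.log_pos hc)
    obtain ⟨n, h1, h2, h3⟩ := (hQ.and (hbig.and hsmall)).exists
    obtain ⟨hQ0, hCn, hDn⟩ := h1
    have hQ1 : 1 ≤ m1 (Q n) := one_le_m1 hQ0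
    have hm1 : m1 (Q n) = 1 := by
      by_contra hne
      have h4 : m1 (spec (e n) D) = m1 (Q n) := by
        rw [hDn, m1_mul, hm n, mul_one]
      have h5 : 1 < m1 (spec (e n) D) := by
        rw [h4]
        exact lt_of_le_of_ne hQ1 (Ne.symm hne)
      have h6 := hgap (e n) h5
      rw [h4] at h6
      have h7 := Real.log_le_log (by linarith) h6
      linarith
    have h8 : len (A n * Q n) ≤ n := by
      rw [mul_comm, ← hCn]
      exact (len_spec_le _ _).trans h2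
    exact absurd h8 (not_le.mpr (hno n (Q n) hQ0 hm1))
  obtain ⟨L, hL⟩ := hstr
  exact ⟨μ, L, hμ, fun A B hA hB hAB hm hK =>
    ⟨hgap1 A B hA hB hAB hK, hL A B hA hB hAB hm hK⟩⟩

theorem mx1_comm (A B : ℤ[X]) : mx1 A B = mx1 B A := by
  unfold mx1
  simp only [max_comm]

theorem ne_of_charpoly (A : Matrix (Fin n) (Fin n) ℂ) (P : ℤ[X]) (hP : A.charpoly = toC P) :
    P ≠ 0 := by
  rintro rfl
  have h1 := (Matrix.charpoly_monic A).ne_zero
  rw [hP] at h1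
  exact h1 (by simp [toC])

/-- **First theorem**: finite-rank perturbations of adapted operators -/
theorem rigid (r : ℕ) (N : ℝ) (hN : 0 ≤ N) : ∃ μ : ℝ, 1 < μ ∧
    ∀ (n : ℕ) (W A E : Matrix (Fin n) (Fin n) ℂ) (P Q : ℤ[X]), AdC W E →
      (∀ x, ‖act (A - W) x‖ ≤ N * ‖x‖) → (A - W).rank ≤ r → A.charpoly = toC P →
      W.charpoly = toC Q → μ ≤ m1 P ∨ μ ≤ m1 Q ∨
        ∃ Φ Ψ : ℤ[X], Φ ≠ 0 ∧ Ψ ≠ 0 ∧ m1 Φ = 1 ∧ m1 Ψ = 1 ∧ P * Φ = Q * Ψ := by
  obtain ⟨μ, hμ, h⟩ := gap_one (Real.log 2 + cst r (8 * (Real.log 2 + Real.log (1 + N))))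
  refine ⟨min 2 μ, lt_min (by norm_num) hμ, fun n W A E P Q hW hK hr hP hQ => ?_⟩
  by_cases hPs : min 2 μ ≤ m1 P
  · exact Or.inl hPs
  by_cases hQs : min 2 μ ≤ m1 Q
  · exact Or.inr (Or.inl hQs)
  right
  right
  push Not at hPs hQs
  have hP0 := ne_of_charpoly A P hP
  have hQ0 := ne_of_charpoly W Q hQ
  obtain ⟨F, hD, hF⟩ := pair_dom r N _ hN (c0_nonneg 8 N (by norm_num) hN) W A (hW.res N) hK hr
  have hF' : ∀ᵐ t : ℝ, ev1 P t = ev1 Q t * F t := by
    filter_upwards [hF] with t ht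
    rw [hP, hQ] at ht
    exact ht
  obtain ⟨A', B', d, h1, h2, h3, h4, h5, h6, h7, h8⟩ := reduce Q P hQ0 hP0 F _ hD hF'
  have hd1 := one_le_m1 h3
  have hA1 := one_le_m1 h4
  have hB1 := one_le_m1 h5
  have hAQ : m1 A' ≤ m1 Q := by
    rw [h7]
    nlinarith
  have hBP : m1 B' ≤ m1 P := by
    rw [h2, m1_mul]
    nlinarith
  have hA2 : m1 A' < 2 := (hAQ.trans_lt hQs).trans_le (min_le_left _ _)
  have h9 : mx1 A' B' ≤ Real.log 2 + cst r (8 * (Real.log 2 + Real.log (1 + N))) := by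
    have h10 := Real.log_le_log (lt_of_lt_of_le one_pos hA1) hA2.le
    linarith
  have hA' : m1 A' = 1 := (h A' B' h4 h5 h6 h9).resolve_right fun h10 =>
    absurd ((min_le_right _ _).trans h10) (not_le.mpr (hAQ.trans_lt hQs))
  rw [mx1_comm] at h9
  have hB' : m1 B' = 1 := (h B' A' h5 h4 h6.symm h9).resolve_right fun h10 =>
    absurd ((min_le_right _ _).trans h10) (not_le.mpr (hBP.trans_lt hPs))
  refine ⟨A', B', h4, h5, hA', hB', ?_⟩
  rw [h1, h2]
  ring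

/-- **Second theorem**: finite-rank perturbations of contractions -/
theorem main (r : ℕ) (N : ℝ) (hN : 0 ≤ N) : ∃ (μ : ℝ) (L : ℕ), 1 < μ ∧
    ∀ (n : ℕ) (W A : Matrix (Fin n) (Fin n) ℂ) (P Q : ℤ[X]), Ctr W →
      (∀ x, ‖act (A - W) x‖ ≤ N * ‖x‖) → (A - W).rank ≤ r → A.charpoly = toC P →
      W.charpoly = toC Q → (m1 P = 1 ∨ μ ≤ m1 P) ∧
        ∃ Φ Ψ R : ℤ[X], Φ ≠ 0 ∧ Ψ ≠ 0 ∧ R ≠ 0 ∧ m1 Φ = 1 ∧ m1 Ψ = 1 ∧ P * Φ = R * Ψ ∧
          len R ≤ L := by
  obtain ⟨μ, L, hμ, h⟩ := pair_cyc (cst r (4 * (Real.log 2 + Real.log (1 + N))))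
  refine ⟨μ, L, hμ, fun n W A P Q hW hK hr hP hQ => ?_⟩
  have hP0 := ne_of_charpoly A P hP
  have hQ0 := ne_of_charpoly W Q hQ
  obtain ⟨F, hD, hF⟩ := pair_dom r N _ hN (c0_nonneg 4 N (by norm_num) hN) W A
    (ctr_res W N hW) hK hr
  have hF' : ∀ᵐ t : ℝ, ev1 P t = ev1 Q t * F t := by
    filter_upwards [hF] with t ht
    rw [hP, hQ] at ht
    exact ht
  obtain ⟨A', B', d, h1, h2, h3, h4, h5, h6, h7, h8⟩ := reduce Q P hQ0 hP0 F _ hD hF'
  have hm : m1 Q = 1 := by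
    unfold m1
    rw [← hQ]
    exact mahler_ctr W hW
  have hd1 := one_le_m1 h3
  have hA1 := one_le_m1 h4
  rw [hm] at h7
  have hA' : m1 A' = 1 := by
    refine le_antisymm ?_ hA1
    nlinarith
  have hd' : m1 d = 1 := by
    rw [hA', mul_one] at h7
    exact h7.symm
  rw [hA', Real.log_one, zero_add, mx1_comm] at h8
  obtain ⟨h9, Φ, h10, h11, h12⟩ := h B' A' h5 h4 h6.symm hA' h8
  have hmP : m1 P = m1 B' := by
    rw [h2, m1_mul, hd', one_mul]
  refine ⟨by rw [hmP]; exact h9, Φ, d, B' * Φ, h10, h3, mul_ne_zero h5 h10, h11, hd', ?_, h12⟩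
  rw [h2]
  ring

end

end Q262.FR
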