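import Mathlib
import Pool.Agent.Q262.FR.Main
import Pool.Agent.Y820.LB.Bridge

/-!
# Integer matrices and arbitrary Hermitian metrics
-/

set_option autoImplicit false

namespace Q262.FR

open Polynomial
open Pool.Agent.H261R2.CM
open Pool.Agent.Y820.LB

noncomputable section

variable {n : ℕ}

theorem norm_le_of (U : Matrix (Fin n) (Fin n) ℂ) (a : ℝ) (ha : 0 ≤ a)
    (h : ∀ x : Fin n → ℂ, ∑ i, ‖(U.mulVec x) i‖ ^ 2 ≤ a ^ 2 * ∑ i, ‖x i‖ ^ 2)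
    (x : EuclideanSpace ℂ (Fin n)) : ‖act U x‖ ≤ a * ‖x‖ := by
  have h1 := h (WithLp.ofLp x)
  rw [← norm_act_sq, ← EuclideanSpace.norm_sq_eq, ← mul_pow] at h1
  exact (sq_le_sq₀ (norm_nonneg _) (by positivity)).mp h1

theorem ctr_of (U : Matrix (Fin n) (Fin n) ℂ)
    (h : ∀ x : Fin n → ℂ, ∑ i, ‖(U.mulVec x) i‖ ^ 2 ≤ ∑ i, ‖x i‖ ^ 2) : Ctr U := by
  intro x
  have h1 := norm_le_of U 1 zero_le_one (fun x => by rw [one_pow, one_mul]; exact h x) x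
  rwa [one_mul] at h1

theorem charpoly_conj (S T A : Matrix (Fin n) (Fin n) ℂ) (hTS : T * S = 1) :
    (S * A * T).charpoly = A.charpoly := by
  rw [Matrix.charpoly_mul_comm, ← mul_assoc, hTS, one_mul]

theorem rank_conj (S T A : Matrix (Fin n) (Fin n) ℂ) : (S * A * T).rank ≤ A.rank :=
  ((Matrix.rank_mul_le _ _).trans (min_le_left _ _)).trans
    ((Matrix.rank_mul_le _ _).trans (min_le_right _ _))

theorem bound_conj (S T A : Matrix (Fin n) (Fin n) ℂ) (hST : S * T = 1) (c : ℝ)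
    (h : ∀ x : Fin n → ℂ, ∑ i, ‖(S.mulVec (A.mulVec x)) i‖ ^ 2 ≤ c * ∑ i, ‖(S.mulVec x) i‖ ^ 2)
    (x : Fin n → ℂ) : ∑ i, ‖((S * A * T).mulVec x) i‖ ^ 2 ≤ c * ∑ i, ‖x i‖ ^ 2 := by
  have h1 := h (T.mulVec x)
  rw [Matrix.mulVec_mulVec _ S T, hST, Matrix.one_mulVec, Matrix.mulVec_mulVec,
    Matrix.mulVec_mulVec] at h1
  exact h1

/-- the integral version in an arbitrary Hermitian metric -/
theorem main_int (r : ℕ) (N : ℝ) (hN : 0 ≤ N) : ∃ μ : ℝ, 1 < μ ∧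
    ∀ (n : ℕ) (U A : Matrix (Fin n) (Fin n) ℤ) (S : Matrix (Fin n) (Fin n) ℂ), S.det ≠ 0 →
      (∀ x : Fin n → ℂ, ∑ i, ‖(S.mulVec ((U.map (Int.castRingHom ℂ)).mulVec x)) i‖ ^ 2 ≤
        ∑ i, ‖(S.mulVec x) i‖ ^ 2) →
      (∀ x : Fin n → ℂ, ∑ i, ‖(S.mulVec (((A - U).map (Int.castRingHom ℂ)).mulVec x)) i‖ ^ 2 ≤
        N ^ 2 * ∑ i, ‖(S.mulVec x) i‖ ^ 2) →
      ((A - U).map (Int.castRingHom ℂ)).rank ≤ r →
      m1 A.charpoly = 1 ∨ μ ≤ m1 A.charpoly := by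
  obtain ⟨μ, L, hμ, h⟩ := main r N hN
  refine ⟨μ, hμ, fun n U A S hS hU hA hr => ?_⟩
  have hST : S * S⁻¹ = 1 := Matrix.mul_nonsing_inv _ (isUnit_iff_ne_zero.mpr hS)
  have hTS : S⁻¹ * S = 1 := Matrix.nonsing_inv_mul _ (isUnit_iff_ne_zero.mpr hS)
  have hsub : S * A.map (Int.castRingHom ℂ) * S⁻¹ - S * U.map (Int.castRingHom ℂ) * S⁻¹ =
      S * (A - U).map (Int.castRingHom ℂ) * S⁻¹ := by
    have h1 : (A - U).map (Int.castRingHom ℂ) =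
        A.map (Int.castRingHom ℂ) - U.map (Int.castRingHom ℂ) := by
      ext i j
      simp
    rw [h1, Matrix.mul_sub, Matrix.sub_mul]
  refine (h n (S * U.map (Int.castRingHom ℂ) * S⁻¹) (S * A.map (Int.castRingHom ℂ) * S⁻¹)
    A.charpoly U.charpoly ?_ ?_ ?_ ?_ ?_).1
  · refine ctr_of _ fun x => ?_
    have h1 := bound_conj S S⁻¹ (U.map (Int.castRingHom ℂ)) hST 1
      (fun x => by rw [one_mul]; exact hU x) x
    rwa [one_mul] at h1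
  · refine norm_le_of _ N hN fun x => ?_
    rw [hsub]
    exact bound_conj S S⁻¹ _ hST (N ^ 2) hA x
  · rw [hsub]
    exact (rank_conj _ _ _).trans hr
  · rw [charpoly_conj _ _ _ hTS, Matrix.charpoly_map]
    rfl
  · rw [charpoly_conj _ _ _ hTS, Matrix.charpoly_map]
    rfl

end

end Q262.FR
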