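import Mathlib
import Pool.Agent.Q262.FR.Metric

/-!
# The sets of Mahler measures of finite-rank perturbations
-/

set_option autoImplicit false

namespace Q262.FR

open MeasureTheory Polynomial
open Pool.Agent.H261R2.CM
open Pool.Agent.Y820.LB
open Pool.Agent.W242.IM (allM closure_of_LL m1_mem_LL)

noncomputable section

theorem log_m1_le_mx1 (A B : ℤ[X]) (hA : A ≠ 0) : Real.log (m1 A) ≤ mx1 A B := by
  rw [D_log_m1]
  unfold mx1
  refine intervalIntegral.integral_mono_ae zero_le_one (D_intervalIntegrable_log A)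
    (mx1_intervalIntegrable A B hA) ?_
  filter_upwards [D_ae_ne A hA] with t ht
  exact Real.log_le_log (norm_pos_iff.mpr ht) (le_max_left _ _)

theorem iter_sub (T : Set ℝ) (m : ℕ) : derivedSet^[m] T ⊆ closure T := by
  induction m with
  | zero => exact subset_closure
  | succ m ih =>
    rw [Function.iterate_succ_apply']
    exact (derivedSet_subset_closure _).trans ((closure_mono ih).trans closure_closure.subset)

theorem closed_of_pairs (K : ℝ) (T : Set ℝ) (hT : ∀ x ∈ T, ∃ A B : ℤ[X], A ≠ 0 ∧ B ≠ 0 ∧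
    IsRelPrime A B ∧ mx1 A B ≤ K ∧ x = m1 A) :
    closure T ⊆ allM ∧ ∃ m : ℕ, derivedSet^[m] T = ∅ := by
  have h := closure_of_LL T fun B => ⟨K, by
    rintro x ⟨hx, -⟩
    obtain ⟨A, B, h1, h2, h3, h4, rfl⟩ := hT x hx
    exact m1_mem_LL A B h1 h2 h3 K h4⟩
  refine ⟨h.1, ?_⟩
  obtain ⟨m, hm⟩ := h.2 (Real.exp K + 1)
  refine ⟨m, Set.eq_empty_of_forall_notMem fun x hx => ?_⟩
  have h1 := hm x hx
  have h2 : T ⊆ Set.Iic (Real.exp K) := by
    intro y hy
    obtain ⟨A, B, g1, g2, g3, g4, rfl⟩ := hT y hy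
    have g5 : 0 < m1 A := lt_of_lt_of_le one_pos (one_le_m1 g1)
    rw [Set.mem_Iic, ← Real.log_le_iff_le_exp g5]
    exact (log_m1_le_mx1 A B g1).trans g4
  have h3 : x ≤ Real.exp K := isClosed_Iic.closure_subset_iff.mpr h2 (iter_sub T m hx)
  linarith

theorem ev1_mul (C D : ℤ[X]) (t : ℝ) : ev1 (C * D) t = ev1 C t * ev1 D t := by
  simp [ev1, toC, Polynomial.map_mul]

/-- the height of the coprime parts -/
theorem adapted_pair (r : ℕ) (N b : ℝ) (hN : 0 ≤ N) (n : ℕ) (W A E : Matrix (Fin n) (Fin n) ℂ)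
    (P Q D : ℤ[X]) (hW : AdC W E) (hK : ∀ x, ‖act (A - W) x‖ ≤ N * ‖x‖)
    (hr : (A - W).rank ≤ r) (hP : A.charpoly = toC (D * P)) (hQ : W.charpoly = toC (D * Q))
    (hB : m1 (D * Q) ≤ b) :
    P ≠ 0 ∧ Q ≠ 0 ∧
      mx1 P Q ≤ Real.log b + cst r (8 * (Real.log 2 + Real.log (1 + N))) := by
  have hP0 := ne_of_charpoly A _ hP
  have hQ0 := ne_of_charpoly W _ hQ
  have hD0 : D ≠ 0 := left_ne_zero_of_mul hP0
  have hP1 : P ≠ 0 := right_ne_zero_of_mul hP0
  have hQ1 : Q ≠ 0 := right_ne_zero_of_mul hQ0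
  obtain ⟨F, hD, hF⟩ := pair_dom r N _ hN (c0_nonneg 8 N (by norm_num) hN) W A (hW.res N) hK hr
  have hF' : ∀ᵐ t : ℝ, ev1 P t = ev1 Q t * F t := by
    filter_upwards [hF, D_ae_ne D hD0] with t ht h2
    rw [hP, hQ] at ht
    have h3 : ev1 (D * P) t = ev1 (D * Q) t * F t := ht
    rw [ev1_mul, ev1_mul, mul_assoc] at h3
    exact mul_left_cancel₀ h2 h3
  have h1 := mx1_le Q P hQ1 F _ hD hF'
  have hb : m1 Q ≤ b := by
    refine le_trans ?_ hB
    rw [m1_mul]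
    nlinarith [one_le_m1 hD0, one_le_m1 hQ1]
  have h2 := Real.log_le_log (lt_of_lt_of_le one_pos (one_le_m1 hQ1)) hb
  refine ⟨hP1, hQ1, ?_⟩
  rw [mx1_comm]
  linarith

/-- a contraction is adapted -/
theorem adC_of_ctr {n : ℕ} (W : Matrix (Fin n) (Fin n) ℂ) (hW : Ctr W) : AdC W 1 := by
  refine ⟨by simp, by simp, by simp, fun x => ?_, fun x => ?_⟩
  · rw [mul_one, act_one]
    exact hW x
  · rw [sub_self, mul_zero]

end

end Q262.FR
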