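import Mathlib
import Pool.Agent.Q262.FR.Closed

/-!
# Finite-rank perturbations of contractions: characteristic polynomials with bounded denominators
-/

set_option autoImplicit false

namespace Q262.FR

open MeasureTheory Polynomial
open Pool.Agent.H261R2.CM
open Pool.Agent.Y820.LB

noncomputable section

/-- the coprime pair attached to a perturbation `A` of a contraction `W` for which `D χ_W` is
integral -/
theorem den_pair (r : ℕ) (N Δ : ℝ) (hN : 0 ≤ N) (n : ℕ) (W A : Matrix (Fin n) (Fin n) ℂ)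
    (P Q : ℤ[X]) (D : ℤ) (hD0 : D ≠ 0) (hDΔ : |(D : ℝ)| ≤ Δ) (hW : Ctr W)
    (hK : ∀ x, ‖act (A - W) x‖ ≤ N * ‖x‖) (hr : (A - W).rank ≤ r) (hPm : P.Monic)
    (hP : A.charpoly = toC P) (hQ : toC Q = C (D : ℂ) * W.charpoly) :
    m1 P = 1 ∨ ∃ A' B' : ℤ[X], A' ≠ 0 ∧ B' ≠ 0 ∧ IsRelPrime B' A' ∧ m1 P = m1 B' ∧
      mx1 B' A' ≤ Real.log Δ + cst r (4 * (Real.log 2 + Real.log (1 + N))) := by
  right
  have hDC : (D : ℂ) ≠ 0 := by exact_mod_cast hD0
  have hD1 : (1:ℝ) ≤ |(D : ℝ)| := by exact_mod_cast Int.one_le_abs hD0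
  have hP0 := ne_of_charpoly A P hP
  have hQ0 : Q ≠ 0 := by
    rintro rfl
    have h1 : (C (D : ℂ) * W.charpoly) = 0 := by
      rw [← hQ]
      simp [toC]
    rcases mul_eq_zero.mp h1 with h2 | h2
    · exact hDC (C_eq_zero.mp h2)
    · exact (Matrix.charpoly_monic W).ne_zero h2
  obtain ⟨F, hDom, hF⟩ := pair_dom r N _ hN (c0_nonneg 4 N (by norm_num) hN) W A
    (ctr_res W N hW) hK hr
  obtain ⟨g, hg1, hg2, hg3⟩ := hDom
  have hDom' : Dom (fun t => ‖F t / (D : ℂ)‖)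
      (cst r (4 * (Real.log 2 + Real.log (1 + N)))) := by
    refine ⟨g, hg1, ?_, hg3⟩
    filter_upwards [hg2] with t ht
    refine ⟨norm_nonneg _, ?_⟩
    have h1 : ‖F t / (D : ℂ)‖ ≤ ‖F t‖ := by
      rw [norm_div, Complex.norm_intCast]
      exact div_le_self (norm_nonneg _) hD1
    refine (Real.log_le_log (by positivity) (by linarith)).trans ht.2
  have hF' : ∀ᵐ t : ℝ, ev1 P t = ev1 Q t * (F t / (D : ℂ)) := by
    filter_upwards [hF] with t ht
    have h1 : ev1 Q t = (D : ℂ) * W.charpoly.eval (ez t) := by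
      unfold ev1
      rw [hQ, eval_mul, eval_C]
    have h2 : ev1 P t = A.charpoly.eval (ez t) := by
      unfold ev1
      rw [hP]
    rw [h1, h2, ht]
    field_simp
  obtain ⟨A', B', d, h1, h2, h3, h4, h5, h6, h7, h8⟩ := reduce Q P hQ0 hP0 _ _ hDom' hF'
  have hmW := mahler_ctr W hW
  have hm : m1 Q ≤ Δ := by
    unfold m1
    rw [hQ, mahlerMeasure_mul, hmW, mul_one, mahlerMeasure_const, Complex.norm_intCast]
    exact hDΔ
  have hd : m1 d = 1 := by
    refine m1_of_no_root d P hPm ⟨B', h2⟩ fun z hz h9 => ?_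
    have h10 : (toC Q).eval z = 0 := by
      rw [h1, toC_mul, eval_mul, h9, zero_mul]
    rw [hQ, eval_mul, eval_C] at h10
    rcases mul_eq_zero.mp h10 with h11 | h11
    · exact hDC h11
    · rw [char_eval] at h11
      have hz0 : z ≠ 0 := by
        rintro rfl
        rw [norm_zero] at hz
        linarith
      have h12 : z • (1 : Matrix (Fin n) (Fin n) ℂ) - W = z • (1 - z⁻¹ • W) := by
        rw [smul_sub, smul_smul, mul_inv_cancel₀ hz0, one_smul]
      rw [h12, Matrix.det_smul] at h11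
      rcases mul_eq_zero.mp h11 with h13 | h13
      · exact pow_ne_zero _ hz0 h13
      · refine det_ne_of_ctr W hW z⁻¹ ?_ h13
        rw [norm_inv]
        exact inv_lt_one_of_one_lt₀ hz
  have hA1 := one_le_m1 h4
  have hA2 : m1 A' ≤ Δ := by
    rw [hd, one_mul] at h7
    rw [← h7]
    exact hm
  refine ⟨A', B', h4, h5, h6.symm, ?_, ?_⟩
  · rw [h2, m1_mul, hd, one_mul]
  · rw [mx1_comm]
    have h9 := Real.log_le_log (lt_of_lt_of_le one_pos hA1) hA2
    linarith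

/-- **Finite-rank perturbations of contractions** with a bounded denominator -/
theorem main_den (r : ℕ) (N Δ : ℝ) (hN : 0 ≤ N) : ∃ μ : ℝ, 1 < μ ∧
    ∀ (n : ℕ) (W A : Matrix (Fin n) (Fin n) ℂ) (P Q : ℤ[X]) (D : ℤ), D ≠ 0 → |(D : ℝ)| ≤ Δ →
      Ctr W → (∀ x, ‖act (A - W) x‖ ≤ N * ‖x‖) → (A - W).rank ≤ r → P.Monic →
      A.charpoly = toC P → toC Q = C (D : ℂ) * W.charpoly → m1 P = 1 ∨ μ ≤ m1 P := by
  obtain ⟨μ, hμ, h⟩ := gap_one (Real.log Δ + cst r (4 * (Real.log 2 + Real.log (1 + N))))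
  refine ⟨μ, hμ, fun n W A P Q D hD hDΔ hW hK hr hPm hP hQ => ?_⟩
  rcases den_pair r N Δ hN n W A P Q D hD hDΔ hW hK hr hPm hP hQ with
    h1 | ⟨A', B', h1, h2, h3, h4, h5⟩
  · exact Or.inl h1
  · rw [h4]
    exact h B' A' h2 h1 h3 h5

end

end Q262.FR
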