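import Mathlib

/-!
# Contractions of a quadratic form with `r` negative squares
-/

set_option autoImplicit false

namespace Q262.FR

open Matrix

noncomputable section

variable {n r : ℕ}

/-- the quadratic form of a matrix -/
def qf (G : Matrix (Fin n) (Fin n) ℝ) (x : Fin n → ℝ) : ℝ := x ⬝ᵥ (G *ᵥ x)

theorem dot_symm (G : Matrix (Fin n) (Fin n) ℝ) (hG : Gᵀ = G) (x y : Fin n → ℝ) :
    y ⬝ᵥ (G *ᵥ x) = x ⬝ᵥ (G *ᵥ y) := by
  rw [dotProduct_mulVec, dotProduct_comm, ← mulVec_transpose, hG]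

theorem dot_V (V : Matrix (Fin n) (Fin r) ℝ) (w : Fin n → ℝ) (c : Fin r → ℝ) :
    w ⬝ᵥ (V *ᵥ c) = c ⬝ᵥ (Vᵀ *ᵥ w) := by
  rw [dotProduct_mulVec, dotProduct_comm, mulVec_transpose]

/-- A form `G` which is negative definite on the span of the columns of `V`, positive definite on
the orthogonal complement, and a map `A` which does not increase it. -/
structure Pont (G A : Matrix (Fin n) (Fin n) ℝ) (V : Matrix (Fin n) (Fin r) ℝ) : Prop where
  symm : Gᵀ = G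
  neg : ∀ c : Fin r → ℝ, c ≠ 0 → qf G (V *ᵥ c) < 0
  pos : ∀ x : Fin n → ℝ, x ≠ 0 → Vᵀ *ᵥ (G *ᵥ x) = 0 → 0 < qf G x
  ctr : ∀ x : Fin n → ℝ, qf G (A *ᵥ x) ≤ qf G x

/-- the Gram matrix of `V` -/
def gr (G : Matrix (Fin n) (Fin n) ℝ) (V : Matrix (Fin n) (Fin r) ℝ) : Matrix (Fin r) (Fin r) ℝ :=
  Vᵀ * G * V

/-- the matrix of the products of `V` and `A V` -/
def mm (G A : Matrix (Fin n) (Fin n) ℝ) (V : Matrix (Fin n) (Fin r) ℝ) :
    Matrix (Fin r) (Fin r) ℝ := Vᵀ * G * A * V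

/-- the contraction -/
def WW (G A : Matrix (Fin n) (Fin n) ℝ) (V : Matrix (Fin n) (Fin r) ℝ) :
    Matrix (Fin n) (Fin n) ℝ := A - A * V * (mm G A V)⁻¹ * (Vᵀ * G * A)

/-- the positive definite form -/
def GP (G : Matrix (Fin n) (Fin n) ℝ) (V : Matrix (Fin n) (Fin r) ℝ) : Matrix (Fin n) (Fin n) ℝ :=
  G - (2:ℝ) • (G * V * (gr G V)⁻¹ * (Vᵀ * G))

variable {G A : Matrix (Fin n) (Fin n) ℝ} {V : Matrix (Fin n) (Fin r) ℝ}

theorem qf_V (c : Fin r → ℝ) : qf G (V *ᵥ c) = c ⬝ᵥ (gr G V *ᵥ c) := by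
  unfold qf gr
  rw [dotProduct_comm, dot_V, mulVec_mulVec, mulVec_mulVec]

theorem qf_nonpos (h : Pont G A V) (c : Fin r → ℝ) : qf G (V *ᵥ c) ≤ 0 := by
  by_cases hc : c = 0
  · rw [hc, mulVec_zero]
    unfold qf
    rw [mulVec_zero, dotProduct_zero]
  · exact (h.neg c hc).le

theorem qf_nonneg (h : Pont G A V) (x : Fin n → ℝ) (hx : Vᵀ *ᵥ (G *ᵥ x) = 0) : 0 ≤ qf G x := by
  by_cases hc : x = 0
  · rw [hc]
    unfold qf
    rw [mulVec_zero, dotProduct_zero]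
  · exact (h.pos x hc hx).le

theorem qf_orth (h : Pont G A V) (y : Fin n → ℝ) (hy : Vᵀ *ᵥ (G *ᵥ y) = 0) (c : Fin r → ℝ) :
    qf G (y + V *ᵥ c) = qf G y + qf G (V *ᵥ c) := by
  have h1 : y ⬝ᵥ (G *ᵥ (V *ᵥ c)) = 0 := by
    rw [← dot_symm G h.symm, dotProduct_comm, dot_V, hy, dotProduct_zero]
  have h2 : (V *ᵥ c) ⬝ᵥ (G *ᵥ y) = 0 := by
    rw [dotProduct_comm, dot_V, hy, dotProduct_zero]
  unfold qf
  rw [mulVec_add, add_dotProduct, dotProduct_add, dotProduct_add, h1, h2]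
  ring

theorem det_gr (h : Pont G A V) : (gr G V).det ≠ 0 := by
  intro h0
  obtain ⟨c, hc, h1⟩ := Matrix.exists_mulVec_eq_zero_iff.mpr h0
  have h2 := h.neg c hc
  rw [qf_V, h1, dotProduct_zero] at h2
  exact lt_irrefl _ h2

theorem det_mm (h : Pont G A V) : (mm G A V).det ≠ 0 := by
  intro h0
  obtain ⟨c, hc, h1⟩ := Matrix.exists_mulVec_eq_zero_iff.mpr h0
  have h2 : Vᵀ *ᵥ (G *ᵥ (A *ᵥ (V *ᵥ c))) = 0 := by
    rw [← h1]
    unfold mm
    rw [mulVec_mulVec, mulVec_mulVec, mulVec_mulVec]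
  have h3 := qf_nonneg h _ h2
  have h4 := h.ctr (V *ᵥ c)
  have h5 := h.neg c hc
  linarith

/-- the coordinates of the projection to the span of `V` -/
def sc (G : Matrix (Fin n) (Fin n) ℝ) (V : Matrix (Fin n) (Fin r) ℝ) (x : Fin n → ℝ) :
    Fin r → ℝ := (gr G V)⁻¹ *ᵥ (Vᵀ *ᵥ (G *ᵥ x))

theorem orth_sc (h : Pont G A V) (x : Fin n → ℝ) :
    Vᵀ *ᵥ (G *ᵥ (x - V *ᵥ sc G V x)) = 0 := by
  have hU : IsUnit (gr G V).det := isUnit_iff_ne_zero.mpr (det_gr h)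
  have h1 : Vᵀ *ᵥ (G *ᵥ (V *ᵥ sc G V x)) = gr G V *ᵥ sc G V x := by
    unfold gr
    rw [mulVec_mulVec, mulVec_mulVec]
  rw [mulVec_sub, mulVec_sub, h1]
  unfold sc
  rw [mulVec_mulVec _ (gr G V) (gr G V)⁻¹, Matrix.mul_nonsing_inv _ hU, one_mulVec, sub_self]

theorem qf_GP (h : Pont G A V) (x : Fin n → ℝ) :
    qf (GP G V) x = qf G (x - V *ᵥ sc G V x) - qf G (V *ᵥ sc G V x) := by
  have h1 : (G * V * (gr G V)⁻¹ * (Vᵀ * G)) *ᵥ x = G *ᵥ (V *ᵥ sc G V x) := by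
    unfold sc
    simp only [mulVec_mulVec, Matrix.mul_assoc]
  have h2 : qf (GP G V) x = qf G x - 2 * (x ⬝ᵥ (G *ᵥ (V *ᵥ sc G V x))) := by
    unfold qf GP
    rw [sub_mulVec, dotProduct_sub, smul_mulVec, h1, dotProduct_smul, smul_eq_mul]
  have h3 := orth_sc h x
  have h4 : x = (x - V *ᵥ sc G V x) + V *ᵥ sc G V x := by abel
  have h5 : x ⬝ᵥ (G *ᵥ (V *ᵥ sc G V x)) = qf G (V *ᵥ sc G V x) := by
    nth_rewrite 1 [h4]
    rw [add_dotProduct]
    have h6 : (x - V *ᵥ sc G V x) ⬝ᵥ (G *ᵥ (V *ᵥ sc G V x)) = 0 := by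
      rw [← dot_symm G h.symm, dotProduct_comm, dot_V, h3, dotProduct_zero]
    rw [h6, zero_add]
    rfl
  have h7 : qf G x = qf G (x - V *ᵥ sc G V x) + qf G (V *ᵥ sc G V x) := by
    nth_rewrite 1 [h4]
    exact qf_orth h _ h3 _
  rw [h2, h5, h7]
  ring

theorem GP_symm (h : Pont G A V) : (GP G V)ᵀ = GP G V := by
  have h1 : (gr G V)ᵀ = gr G V := by
    unfold gr
    rw [transpose_mul, transpose_mul, transpose_transpose, h.symm, Matrix.mul_assoc]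
  unfold GP
  rw [transpose_sub, transpose_smul, transpose_mul, transpose_mul, transpose_mul, transpose_mul,
    transpose_transpose, transpose_nonsing_inv, h1, h.symm]
  simp only [Matrix.mul_assoc]

theorem GP_pos (h : Pont G A V) (x : Fin n → ℝ) (hx : x ≠ 0) : 0 < qf (GP G V) x := by
  rw [qf_GP h]
  have h1 := orth_sc h x
  by_cases hs : sc G V x = 0
  · rw [hs, mulVec_zero, sub_zero] at h1 ⊢
    have h2 : qf G (0 : Fin n → ℝ) = 0 := by
      unfold qf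
      rw [mulVec_zero, dotProduct_zero]
    rw [h2, sub_zero]
    exact h.pos x hx h1
  · have h2 := h.neg _ hs
    have h3 := qf_nonneg h _ h1
    linarith

/-- the vector `t` with `W x = A (x - V t)` -/
def tc (G A : Matrix (Fin n) (Fin n) ℝ) (V : Matrix (Fin n) (Fin r) ℝ) (x : Fin n → ℝ) :
    Fin r → ℝ := (mm G A V)⁻¹ *ᵥ (Vᵀ *ᵥ (G *ᵥ (A *ᵥ x)))

theorem WW_apply (x : Fin n → ℝ) : WW G A V *ᵥ x = A *ᵥ (x - V *ᵥ tc G A V x) := by
  unfold WW tc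
  rw [sub_mulVec, mulVec_sub]
  simp only [mulVec_mulVec, Matrix.mul_assoc]

theorem sub_WW_apply (x : Fin n → ℝ) : (A - WW G A V) *ᵥ x = A *ᵥ (V *ᵥ tc G A V x) := by
  rw [sub_mulVec, WW_apply, mulVec_sub]
  abel

theorem orth_WW (h : Pont G A V) (x : Fin n → ℝ) : Vᵀ *ᵥ (G *ᵥ (WW G A V *ᵥ x)) = 0 := by
  have hU : IsUnit (mm G A V).det := isUnit_iff_ne_zero.mpr (det_mm h)
  have h1 : Vᵀ *ᵥ (G *ᵥ (A *ᵥ (V *ᵥ tc G A V x))) = mm G A V *ᵥ tc G A V x := by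
    unfold mm
    simp only [mulVec_mulVec, Matrix.mul_assoc]
  rw [WW_apply, mulVec_sub, mulVec_sub, mulVec_sub, h1]
  unfold tc
  rw [mulVec_mulVec _ (mm G A V) (mm G A V)⁻¹, Matrix.mul_nonsing_inv _ hU, one_mulVec, sub_self]

theorem sc_orth (x : Fin n → ℝ) (hx : Vᵀ *ᵥ (G *ᵥ x) = 0) : sc G V x = 0 := by
  unfold sc
  rw [hx, mulVec_zero]

theorem qf_zero : qf G (0 : Fin n → ℝ) = 0 := by
  unfold qf
  rw [mulVec_zero, dotProduct_zero]

theorem chain (h : Pont G A V) (x : Fin n → ℝ) :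
    0 ≤ qf G (WW G A V *ᵥ x) ∧ qf G (WW G A V *ᵥ x) ≤
      qf G (x - V *ᵥ sc G V x) + qf G (V *ᵥ (sc G V x - tc G A V x)) := by
  refine ⟨qf_nonneg h _ (orth_WW h x), ?_⟩
  have h1 : x - V *ᵥ tc G A V x = (x - V *ᵥ sc G V x) + V *ᵥ (sc G V x - tc G A V x) := by
    rw [mulVec_sub]
    abel
  rw [WW_apply, ← qf_orth h _ (orth_sc h x), ← h1]
  exact h.ctr _

/-- `W` does not increase the positive definite form -/
theorem WW_ctr (h : Pont G A V) (x : Fin n → ℝ) :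
    qf (GP G V) (WW G A V *ᵥ x) ≤ qf (GP G V) x := by
  have h1 := (chain h x).2
  have h2 := qf_nonpos h (sc G V x - tc G A V x)
  have h3 := qf_nonpos h (sc G V x)
  rw [qf_GP h (WW G A V *ᵥ x), sc_orth _ (orth_WW h x), mulVec_zero, sub_zero, qf_zero, sub_zero,
    qf_GP h x]
  linarith

/-- parallelogram inequality -/
theorem qf_par (h : Pont G A V) (s t : Fin r → ℝ) :
    -qf G (V *ᵥ t) ≤ 2 * (-qf G (V *ᵥ s)) + 2 * (-qf G (V *ᵥ (s - t))) := by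
  have h1 := qf_nonpos h (s + (s - t))
  have h2 : qf G (V *ᵥ (s + (s - t))) + qf G (V *ᵥ t) =
      2 * qf G (V *ᵥ s) + 2 * qf G (V *ᵥ (s - t)) := by
    have h3 : V *ᵥ (s + (s - t)) = V *ᵥ s + V *ᵥ (s - t) := mulVec_add _ _ _
    have h4 : V *ᵥ t = V *ᵥ s - V *ᵥ (s - t) := by
      rw [← mulVec_sub]
      congr 1
      abel
    rw [h3, h4]
    unfold qf
    simp only [mulVec_add, mulVec_sub, add_dotProduct, dotProduct_add, sub_dotProduct,
      dotProduct_sub]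
    ring
  linarith

/-- the size of the perturbation -/
theorem sub_WW_bound (h : Pont G A V) (c : ℝ)
    (hc : ∀ t : Fin r → ℝ, -qf G (V *ᵥ ((gr G V)⁻¹ *ᵥ (mm G A V *ᵥ t))) ≤ c * -qf G (V *ᵥ t))
    (hc0 : 0 ≤ c) (x : Fin n → ℝ) :
    qf (GP G V) ((A - WW G A V) *ᵥ x) ≤ 4 * c * qf (GP G V) x := by
  set t := tc G A V x with ht
  have h1 : qf (GP G V) ((A - WW G A V) *ᵥ x) ≤ 2 * (c * -qf G (V *ᵥ t)) := by
    rw [sub_WW_apply, ← ht, qf_GP h]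
    have h2 : sc G V (A *ᵥ (V *ᵥ t)) = (gr G V)⁻¹ *ᵥ (mm G A V *ᵥ t) := by
      unfold sc mm
      simp only [mulVec_mulVec, Matrix.mul_assoc]
    have h3 := hc t
    have h4 := orth_sc h (A *ᵥ (V *ᵥ t))
    have h5 : qf G (A *ᵥ (V *ᵥ t)) = qf G (A *ᵥ (V *ᵥ t) - V *ᵥ sc G V (A *ᵥ (V *ᵥ t))) +
        qf G (V *ᵥ sc G V (A *ᵥ (V *ᵥ t))) := by
      rw [← qf_orth h _ h4]
      congr 1
      abel
    have h6 := h.ctr (V *ᵥ t)
    have h7 := qf_nonpos h t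
    rw [h2] at h5 ⊢
    linarith
  have h2 := chain h x
  have h3 := qf_par h (sc G V x) t
  have h4 : -qf G (V *ᵥ t) ≤ 2 * qf (GP G V) x := by
    rw [qf_GP h x]
    have h5 := h2.1.trans h2.2
    rw [← ht] at h5
    linarith
  calc qf (GP G V) ((A - WW G A V) *ᵥ x) ≤ 2 * (c * -qf G (V *ᵥ t)) := h1
    _ ≤ 2 * (c * (2 * qf (GP G V) x)) := by
        have := mul_le_mul_of_nonneg_left h4 hc0
        linarith
    _ = 4 * c * qf (GP G V) x := by ring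

/-- a positive definite form is a sum of squares of independent linear forms -/
theorem exists_sq {k : ℕ} (M : Matrix (Fin k) (Fin k) ℝ) (hM : Mᵀ = M)
    (hpos : ∀ x, x ≠ 0 → 0 < qf M x) :
    ∃ S : Matrix (Fin k) (Fin k) ℝ, S.det ≠ 0 ∧ M = Sᵀ * S := by
  open scoped MatrixOrder Matrix.Norms.L2Operator in
  have h1 : M.PosDef := by
    refine Matrix.PosDef.of_dotProduct_mulVec_pos ?_ ?_
    · unfold Matrix.IsHermitian
      rw [conjTranspose_eq_transpose_of_trivial]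
      exact hM
    · intro x hx
      have h2 := hpos x hx
      unfold qf at h2
      simpa using h2
  obtain ⟨y, hy, h2⟩ := CStarAlgebra.isStrictlyPositive_iff_eq_star_mul_self.mp
    h1.isStrictlyPositive
  refine ⟨y, ?_, ?_⟩
  · exact ((Matrix.isUnit_iff_isUnit_det y).mp hy).ne_zero
  · rw [h2, star_eq_conjTranspose, conjTranspose_eq_transpose_of_trivial]

end

end Q262.FR
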