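import Mathlib
import Pool.Agent.Q262.FR.Den
import Pool.Agent.Q262.FR.Pont

/-!
# Integral contractions of integral quadratic forms with `r` negative squares
-/

set_option autoImplicit false

namespace Q262.FR

open Matrix Polynomial
open Pool.Agent.H261R2.CM
open Pool.Agent.Y820.LB

noncomputable section

variable {n r : ℕ}

/-- complexification -/
def cx {k l : ℕ} (B : Matrix (Fin k) (Fin l) ℝ) : Matrix (Fin k) (Fin l) ℂ :=
  B.map (Complex.ofRealHom)

theorem cx_mul {k l m : ℕ} (B : Matrix (Fin k) (Fin l) ℝ) (C : Matrix (Fin l) (Fin m) ℝ) :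
    cx (B * C) = cx B * cx C := by
  unfold cx
  rw [Matrix.map_mul]

theorem cx_sub {k l : ℕ} (B C : Matrix (Fin k) (Fin l) ℝ) : cx (B - C) = cx B - cx C := by
  unfold cx
  ext i j
  simp

theorem sq_cx {k l : ℕ} (B : Matrix (Fin k) (Fin l) ℝ) (z : Fin l → ℂ) :
    ∑ i, ‖(cx B *ᵥ z) i‖ ^ 2 = ∑ i, ((B *ᵥ fun j => (z j).re) i) ^ 2 +
      ∑ i, ((B *ᵥ fun j => (z j).im) i) ^ 2 := by
  rw [← Finset.sum_add_distrib]
  refine Finset.sum_congr rfl fun i _ => ?_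
  rw [← Complex.normSq_eq_norm_sq, Complex.normSq_apply]
  have h1 : ((cx B *ᵥ z) i).re = (B *ᵥ fun j => (z j).re) i := by
    unfold cx
    simp [mulVec, dotProduct]
  have h2 : ((cx B *ᵥ z) i).im = (B *ᵥ fun j => (z j).im) i := by
    unfold cx
    simp [mulVec, dotProduct]
  rw [h1, h2]
  ring

theorem cx_le {k l m : ℕ} (B : Matrix (Fin k) (Fin l) ℝ) (C : Matrix (Fin m) (Fin l) ℝ) (c : ℝ)
    (h : ∀ x : Fin l → ℝ, ∑ i, ((B *ᵥ x) i) ^ 2 ≤ c * ∑ i, ((C *ᵥ x) i) ^ 2) (z : Fin l → ℂ) :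
    ∑ i, ‖(cx B *ᵥ z) i‖ ^ 2 ≤ c * ∑ i, ‖(cx C *ᵥ z) i‖ ^ 2 := by
  rw [sq_cx, sq_cx, mul_add]
  exact add_le_add (h _) (h _)

theorem qf_sq {k : ℕ} (S M : Matrix (Fin k) (Fin k) ℝ) (h : M = Sᵀ * S) (x : Fin k → ℝ) :
    qf M x = ∑ i, ((S *ᵥ x) i) ^ 2 := by
  unfold qf
  rw [h, ← mulVec_mulVec, ← dot_V, dotProduct]
  exact Finset.sum_congr rfl fun i _ => by ring

theorem exists_c (B M : Matrix (Fin r) (Fin r) ℝ) (hB : Bᵀ = B) (hpos : ∀ x, x ≠ 0 → 0 < qf B x) :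
    ∃ c : ℝ, 0 ≤ c ∧ ∀ t, qf B (M *ᵥ t) ≤ c * qf B t := by
  obtain ⟨S, hS, h⟩ := exists_sq B hB hpos
  have hU : IsUnit S.det := isUnit_iff_ne_zero.mpr hS
  set K := S * M * S⁻¹ with hK
  refine ⟨∑ i, ∑ j, K i j ^ 2, Finset.sum_nonneg fun i _ => Finset.sum_nonneg fun j _ =>
    sq_nonneg _, fun t => ?_⟩
  rw [qf_sq S B h, qf_sq S B h]
  have h1 : S *ᵥ (M *ᵥ t) = K *ᵥ (S *ᵥ t) := by
    rw [hK, mulVec_mulVec, mulVec_mulVec, Matrix.mul_assoc (S * M), Matrix.nonsing_inv_mul _ hU,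
      Matrix.mul_one]
  rw [h1, Finset.sum_mul]
  refine Finset.sum_le_sum fun i _ => ?_
  exact Finset.sum_mul_sq_le_sq_mul_sq Finset.univ (fun j => K i j) (fun j => (S *ᵥ t) j)

/-- the matrix of integers as a real matrix -/
def re {k l : ℕ} (B : Matrix (Fin k) (Fin l) ℤ) : Matrix (Fin k) (Fin l) ℝ :=
  B.map (Int.castRingHom ℝ)

theorem re_mul {k l m : ℕ} (B : Matrix (Fin k) (Fin l) ℤ) (C : Matrix (Fin l) (Fin m) ℤ) :
    re (B * C) = re B * re C := by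
  unfold re
  rw [Matrix.map_mul]

theorem re_transpose {k l : ℕ} (B : Matrix (Fin k) (Fin l) ℤ) : re Bᵀ = (re B)ᵀ := rfl

/-- the integral polynomial `det (m) χ_W` -/
def Qp (G A : Matrix (Fin n) (Fin n) ℤ) (V : Matrix (Fin n) (Fin r) ℤ) : ℤ[X] :=
  (Matrix.fromBlocks A.charmatrix (-(A * V).map (C : ℤ →+* ℤ[X]))
    ((Vᵀ * G * A).map (C : ℤ →+* ℤ[X])) ((Vᵀ * G * A * V).map (C : ℤ →+* ℤ[X]))).det

theorem Qp_eval (G A : Matrix (Fin n) (Fin n) ℤ) (V : Matrix (Fin n) (Fin r) ℤ) (z : ℝ) :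
    ((Qp G A V).map (Int.castRingHom ℝ)).eval z =
      (Matrix.fromBlocks (z • (1 : Matrix (Fin n) (Fin n) ℝ) - re A) (-(re A * re V))
        ((re V)ᵀ * re G * re A) ((re V)ᵀ * re G * re A * re V)).det := by
  have h1 : ((Qp G A V).map (Int.castRingHom ℝ)).eval z =
      (Polynomial.eval₂RingHom (Int.castRingHom ℝ) z) (Qp G A V) := by
    rw [Polynomial.coe_eval₂RingHom, Polynomial.eval_map]
  rw [h1]
  unfold Qp
  rw [RingHom.map_det]
  congr 1
  rw [RingHom.mapMatrix_apply, Matrix.fromBlocks_map]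
  have hC : ∀ {k l : ℕ} (B : Matrix (Fin k) (Fin l) ℤ),
      (B.map (C : ℤ →+* ℤ[X])).map (Polynomial.eval₂RingHom (Int.castRingHom ℝ) z) = re B := by
    intro k l B
    ext i j
    change (Polynomial.eval₂RingHom (Int.castRingHom ℝ) z) (C (B i j)) = Int.castRingHom ℝ (B i j)
    rw [Polynomial.coe_eval₂RingHom, Polynomial.eval₂_C]
  have hA : A.charmatrix.map (Polynomial.eval₂RingHom (Int.castRingHom ℝ) z) =
      z • (1 : Matrix (Fin n) (Fin n) ℝ) - re A := by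
    ext i j
    have h2 : re A i j = Int.castRingHom ℝ (A i j) := rfl
    rw [Matrix.map_apply, Matrix.charmatrix_apply, Matrix.sub_apply, Matrix.smul_apply,
      Matrix.one_apply, h2, map_sub, Polynomial.coe_eval₂RingHom, Polynomial.eval₂_C]
    by_cases hij : i = j
    · subst hij
      simp
    · simp [hij]
  have hneg : (-(A * V).map (C : ℤ →+* ℤ[X])).map
      (Polynomial.eval₂RingHom (Int.castRingHom ℝ) z) = -(re A * re V) := by
    rw [← re_mul, ← hC]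
    ext i j
    simp
  rw [hA, hneg, hC, hC, re_mul, re_mul, re_mul, re_transpose, re_mul, re_mul, re_transpose]

theorem Qp_real (G A : Matrix (Fin n) (Fin n) ℤ) (V : Matrix (Fin n) (Fin r) ℤ)
    (h : (mm (re G) (re A) (re V)).det ≠ 0) :
    (Qp G A V).map (Int.castRingHom ℝ) =
      C (mm (re G) (re A) (re V)).det * (WW (re G) (re A) (re V)).charpoly := by
  refine Polynomial.funext fun z => ?_
  have hU : IsUnit (mm (re G) (re A) (re V)).det := isUnit_iff_ne_zero.mpr h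
  let _ : Invertible ((re V)ᵀ * re G * re A * re V) :=
    Matrix.invertibleOfIsUnitDet _ hU
  rw [Qp_eval, Matrix.det_fromBlocks₂₂, eval_mul, eval_C, Matrix.eval_charpoly]
  congr 1
  rw [Matrix.invOf_eq_nonsing_inv]
  congr 1
  unfold WW mm
  rw [Matrix.smul_one_eq_diagonal, Matrix.scalar_apply]
  simp only [Matrix.neg_mul, Matrix.mul_assoc]
  abel

theorem det_re {k : ℕ} (B : Matrix (Fin k) (Fin k) ℤ) : (re B).det = (B.det : ℝ) := by
  unfold re
  rw [← RingHom.mapMatrix_apply, ← RingHom.map_det]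
  rfl

theorem Qp_toC (G A : Matrix (Fin n) (Fin n) ℤ) (V : Matrix (Fin n) (Fin r) ℤ)
    (h : (mm (re G) (re A) (re V)).det ≠ 0) :
    toC (Qp G A V) = C (((Vᵀ * G * A * V).det : ℤ) : ℂ) *
      (cx (WW (re G) (re A) (re V))).charpoly := by
  have h1 := congrArg (Polynomial.map Complex.ofRealHom) (Qp_real G A V h)
  rw [Polynomial.map_map, Polynomial.map_mul, Polynomial.map_C] at h1
  unfold cx
  rw [Matrix.charpoly_map]
  have h2 : (Complex.ofRealHom).comp (Int.castRingHom ℝ) = Int.castRingHom ℂ :=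
    RingHom.ext_int _ _
  rw [h2] at h1
  have h3 : mm (re G) (re A) (re V) = re (Vᵀ * G * A * V) := by
    unfold mm
    rw [re_mul, re_mul, re_mul, re_transpose]
  have h4 : Complex.ofRealHom (mm (re G) (re A) (re V)).det =
      (((Vᵀ * G * A * V).det : ℤ) : ℂ) := by
    rw [h3, det_re]
    simp
  rw [h4] at h1
  exact h1

end

end Q262.FR
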