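import Mathlib
import Pool.Agent.Q262.FR.Iso

/-!
# Integral contractions of integral quadratic forms with `r` negative squares, conclusion
-/

set_option autoImplicit false

namespace Q262.FR

open Matrix Polynomial
open Pool.Agent.H261R2.CM
open Pool.Agent.Y820.LB

noncomputable section

variable {n r : ℕ}

/-- the property of a constant -/
def IsC (g m : Matrix (Fin r) (Fin r) ℝ) (c : ℝ) : Prop :=
  0 ≤ c ∧ ∀ t, qf (-g) ((g⁻¹ * m) *ᵥ t) ≤ c * qf (-g) t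

/-- the bound for the height of the pair -/
def Kc (r : ℕ) (c Δ : ℝ) : ℝ := Real.log Δ + cst r (4 * (Real.log 2 + Real.log (1 + 2 * √c)))

theorem gr_re (G : Matrix (Fin n) (Fin n) ℤ) (V : Matrix (Fin n) (Fin r) ℤ) :
    gr (re G) (re V) = re (Vᵀ * G * V) := by
  unfold gr
  rw [re_mul, re_mul, re_transpose]

theorem mm_re (G A : Matrix (Fin n) (Fin n) ℤ) (V : Matrix (Fin n) (Fin r) ℤ) :
    mm (re G) (re A) (re V) = re (Vᵀ * G * A * V) := by
  unfold mm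
  rw [re_mul, re_mul, re_mul, re_transpose]

theorem iso_pair (r n : ℕ) (c Δ : ℝ) (G A : Matrix (Fin n) (Fin n) ℤ)
    (V : Matrix (Fin n) (Fin r) ℤ) (h : Pont (re G) (re A) (re V))
    (hC : IsC (re (Vᵀ * G * V)) (re (Vᵀ * G * A * V)) c)
    (hdetL : |((Vᵀ * G * A * V).det : ℝ)| ≤ Δ) :
    m1 A.charpoly = 1 ∨ ∃ A' B' : ℤ[X], A' ≠ 0 ∧ B' ≠ 0 ∧ IsRelPrime B' A' ∧
      m1 A.charpoly = m1 B' ∧ mx1 B' A' ≤ Kc r c Δ := by
  have hgr := gr_re G V
  have hmm := mm_re G A V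
  have hqf : ∀ t : Fin r → ℝ, -qf (re G) (re V *ᵥ t) = qf (-(re (Vᵀ * G * V))) t := by
    intro t
    rw [qf_V, hgr]
    unfold qf
    rw [neg_mulVec, dotProduct_neg]
  have hdet := det_mm h
  have hdetZ : (Vᵀ * G * A * V).det ≠ 0 := by
    intro h0
    apply hdet
    rw [hmm, det_re, h0]
    simp
  obtain ⟨S, hS, hGP⟩ := exists_sq (GP (re G) (re V)) (GP_symm h) (GP_pos h)
  set W := WW (re G) (re A) (re V) with hW
  have hST : cx S * (cx S)⁻¹ = 1 := by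
    refine Matrix.mul_nonsing_inv _ (isUnit_iff_ne_zero.mpr ?_)
    unfold cx
    rw [← RingHom.mapMatrix_apply, ← RingHom.map_det]
    simpa using hS
  have hTS : (cx S)⁻¹ * cx S = 1 := mul_eq_one_comm.mp hST
  have hsub : cx S * cx (re A) * (cx S)⁻¹ - cx S * cx W * (cx S)⁻¹ =
      cx S * cx (re A - W) * (cx S)⁻¹ := by
    rw [cx_sub, Matrix.mul_sub, Matrix.sub_mul]
  have hb : ∀ (B : Matrix (Fin n) (Fin n) ℝ) (c : ℝ),
      (∀ x, qf (GP (re G) (re V)) (B *ᵥ x) ≤ c * qf (GP (re G) (re V)) x) →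
      ∀ z : Fin n → ℂ, ∑ i, ‖((cx S * cx B * (cx S)⁻¹) *ᵥ z) i‖ ^ 2 ≤ c * ∑ i, ‖z i‖ ^ 2 := by
    intro B c hB
    refine bound_conj (cx S) (cx S)⁻¹ (cx B) hST c fun z => ?_
    rw [mulVec_mulVec, ← cx_mul]
    refine cx_le _ _ _ (fun x => ?_) z
    rw [← mulVec_mulVec, ← qf_sq S _ hGP, ← qf_sq S _ hGP]
    exact hB x
  refine den_pair r (2 * √c) Δ (by positivity) n
    (cx S * cx W * (cx S)⁻¹) (cx S * cx (re A) * (cx S)⁻¹) A.charpoly (Qp G A V)
    (Vᵀ * G * A * V).det hdetZ hdetL ?_ ?_ ?_ (Matrix.charpoly_monic A) ?_ ?_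
  · refine ctr_of _ fun z => ?_
    have h1 := hb W 1 (fun x => by rw [one_mul]; exact WW_ctr h x) z
    rwa [one_mul] at h1
  · refine norm_le_of _ _ (by positivity) fun z => ?_
    rw [hsub]
    have h1 : (2 * √c) ^ 2 = 4 * c := by
      rw [mul_pow, Real.sq_sqrt hC.1]
      norm_num
    rw [h1]
    refine hb _ _ (fun x => ?_) z
    refine sub_WW_bound h c (fun t => ?_) hC.1 x
    rw [hqf, hqf, hgr, hmm, mulVec_mulVec]
    exact hC.2 t
  · rw [hsub]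
    refine (rank_conj _ _ _).trans ?_
    have h1 : re A - W = (re A * re V) *
        ((mm (re G) (re A) (re V))⁻¹ * ((re V)ᵀ * re G * re A)) := by
      rw [hW]
      unfold WW
      rw [sub_sub_cancel, Matrix.mul_assoc (re A * re V)]
    rw [h1, cx_mul]
    refine (Matrix.rank_mul_le _ _).trans ((min_le_left _ _).trans ?_)
    have h2 := Matrix.rank_le_width (cx (re A * re V))
    exact h2
  · rw [charpoly_conj _ _ _ hTS]
    have h1 : cx (re A) = A.map (Int.castRingHom ℂ) := by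
      unfold cx re
      ext i j
      simp
    rw [h1, Matrix.charpoly_map]
    rfl
  · rw [charpoly_conj _ _ _ hTS]
    exact Qp_toC G A V hdet

/-- the displacement condition -/
def Disp (g m : Matrix (Fin r) (Fin r) ℝ) (c : ℝ) : Prop :=
  ∀ s t : Fin r → ℝ, (s ⬝ᵥ (m *ᵥ t)) ^ 2 ≤ c * (qf g s * qf g t)

theorem qf_neg (g : Matrix (Fin r) (Fin r) ℝ) (s : Fin r → ℝ) : qf (-g) s = -qf g s := by
  unfold qf
  rw [neg_mulVec, dotProduct_neg]

theorem isC_of_disp (g m : Matrix (Fin r) (Fin r) ℝ) (c : ℝ) (hc : 0 ≤ c)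
    (hneg : ∀ x, x ≠ 0 → 0 < qf (-g) x) (hdet : g.det ≠ 0) (h : Disp g m c) : IsC g m c := by
  refine ⟨hc, fun t => ?_⟩
  have hnn : ∀ x, 0 ≤ qf (-g) x := by
    intro x
    by_cases hx : x = 0
    · rw [hx, qf_zero]
    · exact (hneg x hx).le
  have hU : IsUnit g.det := isUnit_iff_ne_zero.mpr hdet
  set w := (g⁻¹ * m) *ᵥ t with hw
  have h1 : w ⬝ᵥ (m *ᵥ t) = qf g w := by
    unfold qf
    congr 1
    rw [hw, mulVec_mulVec, ← Matrix.mul_assoc, Matrix.mul_nonsing_inv _ hU, Matrix.one_mul]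
  have h2 := h w t
  rw [h1] at h2
  have h3 := qf_neg g w
  have h4 := qf_neg g t
  have h5 := hnn w
  have h6 := hnn t
  by_cases h7 : qf (-g) w = 0
  · rw [h7]
    positivity
  · have h8 : 0 < qf (-g) w := lt_of_le_of_ne h5 (Ne.symm h7)
    have h9 : qf (-g) w * qf (-g) w ≤ (c * qf (-g) t) * qf (-g) w := by
      rw [h3, h4]
      nlinarith [h2]
    exact le_of_mul_le_mul_right h9 h8

theorem det_of_isC (g m : Matrix (Fin r) (Fin r) ℝ) (c Δ : ℝ) (hsym : gᵀ = g)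
    (hneg : ∀ x, x ≠ 0 → 0 < qf (-g) x) (hdet : g.det ≠ 0) (h : IsC g m c)
    (hΔ : |g.det| ≤ Δ) : |m.det| ≤ Δ * ((r.factorial : ℝ) * √c ^ r) := by
  have hU : IsUnit g.det := isUnit_iff_ne_zero.mpr hdet
  obtain ⟨S, hS, hg⟩ := exists_sq (-g) (by rw [transpose_neg, hsym]) hneg
  have hSU : IsUnit S.det := isUnit_iff_ne_zero.mpr hS
  set K := S * (g⁻¹ * m) * S⁻¹ with hK
  have h1 : m.det = g.det * K.det := by
    have h2 : m = g * (g⁻¹ * m) := by
      rw [← Matrix.mul_assoc, Matrix.mul_nonsing_inv _ hU, Matrix.one_mul]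
    have h3 : K.det = (g⁻¹ * m).det := by
      rw [hK, Matrix.det_mul, Matrix.det_mul_comm S, ← Matrix.det_mul, Matrix.mul_assoc,
        Matrix.mul_nonsing_inv _ hSU, Matrix.mul_one]
    rw [h3, ← Matrix.det_mul, ← h2]
  have h4 : ∀ y : Fin r → ℝ, ∑ i, ((K *ᵥ y) i) ^ 2 ≤ c * ∑ i, (y i) ^ 2 := by
    intro y
    have h5 := h.2 (S⁻¹ *ᵥ y)
    rw [qf_sq S _ hg, qf_sq S _ hg, mulVec_mulVec, mulVec_mulVec, mulVec_mulVec,
      Matrix.mul_nonsing_inv _ hSU, Matrix.one_mulVec] at h5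
    rw [hK]
    exact h5
  have h6 : ∀ i j, |K i j| ≤ √c := by
    intro i j
    refine Real.abs_le_sqrt ?_
    have h7 := h4 (Pi.single j 1)
    have h8 : ∑ i, (Pi.single (M := fun _ => ℝ) j 1 i) ^ 2 = (1:ℝ) := by
      rw [Finset.sum_eq_single j]
      · simp
      · intro b _ hb
        simp [hb]
      · simp
    rw [h8, mul_one] at h7
    refine le_trans ?_ h7
    have h9 : K i j = (K *ᵥ Pi.single j 1) i := by simp
    rw [h9]
    exact Finset.single_le_sum (f := fun i => ((K *ᵥ Pi.single j 1) i) ^ 2)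
      (fun _ _ => sq_nonneg _) (Finset.mem_univ i)
  have h10 : |K.det| ≤ (r.factorial : ℝ) * √c ^ r := by
    have h11 := Matrix.det_le (A := K) (abv := AbsoluteValue.abs) (x := √c) (fun i j => h6 i j)
    simpa using h11
  rw [h1, abs_mul]
  have h12 : 0 ≤ |g.det| := abs_nonneg _
  have h13 : 0 ≤ |K.det| := abs_nonneg _
  calc |g.det| * |K.det| ≤ Δ * |K.det| := mul_le_mul_of_nonneg_right hΔ h13
    _ ≤ _ := mul_le_mul_of_nonneg_left h10 (h12.trans hΔ)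

/-- the height bound for given covolume and displacement -/
def Hc (r : ℕ) (c Δ : ℝ) : ℝ := Kc r |c| (Δ * ((r.factorial : ℝ) * √|c| ^ r))

theorem iso_pair' (r n : ℕ) (c Δ : ℝ) (G A : Matrix (Fin n) (Fin n) ℤ)
    (V : Matrix (Fin n) (Fin r) ℤ) (h : Pont (re G) (re A) (re V))
    (hΔ : |((Vᵀ * G * V).det : ℝ)| ≤ Δ)
    (hC : Disp (re (Vᵀ * G * V)) (re (Vᵀ * G * A * V)) c) :
    m1 A.charpoly = 1 ∨ ∃ A' B' : ℤ[X], A' ≠ 0 ∧ B' ≠ 0 ∧ IsRelPrime B' A' ∧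
      m1 A.charpoly = m1 B' ∧ mx1 B' A' ≤ Hc r c Δ := by
  have hgr := gr_re G V
  have hsym : (re (Vᵀ * G * V))ᵀ = re (Vᵀ * G * V) := by
    rw [← hgr]
    unfold gr
    rw [transpose_mul, transpose_mul, transpose_transpose, h.symm, Matrix.mul_assoc]
  have hneg : ∀ x, x ≠ 0 → 0 < qf (-(re (Vᵀ * G * V))) x := by
    intro x hx
    have h1 := h.neg x hx
    rw [qf_V, hgr] at h1
    rw [qf_neg]
    unfold qf
    linarith
  have hdet : (re (Vᵀ * G * V)).det ≠ 0 := by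
    rw [← hgr]
    exact det_gr h
  have hC' : Disp (re (Vᵀ * G * V)) (re (Vᵀ * G * A * V)) |c| := by
    intro s t
    refine (hC s t).trans (mul_le_mul_of_nonneg_right (le_abs_self c) ?_)
    have h1 : ∀ x, qf (re (Vᵀ * G * V)) x ≤ 0 := by
      intro x
      by_cases hx : x = 0
      · rw [hx, qf_zero]
      · have h2 := hneg x hx
        rw [qf_neg] at h2
        linarith
    exact mul_nonneg_of_nonpos_of_nonpos (h1 s) (h1 t)
  have hI := isC_of_disp _ _ |c| (abs_nonneg c) hneg hdet hC'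
  have hΔ' : |(re (Vᵀ * G * V)).det| ≤ Δ := by
    rw [det_re]
    exact hΔ
  have hD := det_of_isC _ _ |c| Δ hsym hneg hdet hI hΔ'
  rw [det_re] at hD
  exact iso_pair r n |c| _ G A V h hI hD

/-- **Lehmer's inequality for contractions of forms with `r` negative squares** -/
theorem iso_gap (r : ℕ) (c Δ : ℝ) : ∃ μ : ℝ, 1 < μ ∧ ∀ (n : ℕ) (G A : Matrix (Fin n) (Fin n) ℤ)
    (V : Matrix (Fin n) (Fin r) ℤ), Pont (re G) (re A) (re V) →
    |((Vᵀ * G * V).det : ℝ)| ≤ Δ → Disp (re (Vᵀ * G * V)) (re (Vᵀ * G * A * V)) c →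
    m1 A.charpoly = 1 ∨ μ ≤ m1 A.charpoly := by
  obtain ⟨μ, hμ, h⟩ := gap_one (Hc r c Δ)
  refine ⟨μ, hμ, fun n G A V hP hg hm => ?_⟩
  rcases iso_pair' r n c Δ G A V hP hg hm with h1 | ⟨A', B', h1, h2, h3, h4, h5⟩
  · exact Or.inl h1
  · rw [h4]
    exact h B' A' h2 h1 h3 h5

/-- the set of the measures -/
theorem iso_closed (r : ℕ) (c Δ : ℝ) (T : Set ℝ) (hT : ∀ x ∈ T, ∃ (n : ℕ)
    (G A : Matrix (Fin n) (Fin n) ℤ) (V : Matrix (Fin n) (Fin r) ℤ),
    Pont (re G) (re A) (re V) ∧ |((Vᵀ * G * V).det : ℝ)| ≤ Δ ∧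
    Disp (re (Vᵀ * G * V)) (re (Vᵀ * G * A * V)) c ∧ x = m1 A.charpoly) :
    closure T ⊆ Pool.Agent.W242.IM.allM ∧ ∃ m : ℕ, derivedSet^[m] T = ∅ := by
  refine closed_of_pairs (max 0 (Hc r c Δ)) T fun x hx => ?_
  obtain ⟨n, G, A, V, hP, hg, hm, rfl⟩ := hT x hx
  rcases iso_pair' r n c Δ G A V hP hg hm with h1 | ⟨A', B', h1, h2, h3, h4, h5⟩
  · refine ⟨1, 1, one_ne_zero, one_ne_zero, isRelPrime_one_left, ?_, ?_⟩
    · refine le_trans (le_of_eq ?_) (le_max_left _ _)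
      unfold mx1
      simp [ev1_one]
    · rw [h1, m1_one]
  · exact ⟨B', A', h2, h1, h3, h5.trans (le_max_right _ _), h4⟩

end

end Q262.FR
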