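import Mathlib
import Pool.Agent.Q262.FR.Iso2

/-!
# Integral forms with `r` negative squares: formulation with lattice vectors
-/

set_option autoImplicit false

namespace Q262.FR

open Matrix Polynomial
open Pool.Agent.H261R2.CM
open Pool.Agent.Y820.LB

noncomputable section

variable {n r : ℕ}

/-- the value of the form at real vectors -/
def bil (G : Matrix (Fin n) (Fin n) ℤ) (x y : Fin n → ℝ) : ℝ :=
  ∑ i, ∑ j, (G i j : ℝ) * x i * y j

/-- linear combinations of lattice vectors -/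
def comb (v : Fin r → Fin n → ℤ) (c : Fin r → ℝ) : Fin n → ℝ := fun i => ∑ k, c k * (v k i : ℝ)

/-- the image of a real vector -/
def img (A : Matrix (Fin n) (Fin n) ℤ) (x : Fin n → ℝ) : Fin n → ℝ := fun i => ∑ j, (A i j : ℝ) * x j

/-- the Gram matrix -/
def gramZ (G : Matrix (Fin n) (Fin n) ℤ) (v : Fin r → Fin n → ℤ) : Matrix (Fin r) (Fin r) ℤ :=
  Matrix.of fun i j => ∑ a, ∑ b, G a b * v i a * v j b

/-- the matrix with given columns -/
def colM (v : Fin r → Fin n → ℤ) : Matrix (Fin n) (Fin r) ℤ := (Matrix.of v)ᵀ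

theorem bil_eq (G : Matrix (Fin n) (Fin n) ℤ) (x y : Fin n → ℝ) :
    bil G x y = x ⬝ᵥ (re G *ᵥ y) := by
  unfold bil re
  simp only [dotProduct, mulVec, Finset.mul_sum, Matrix.map_apply]
  refine Finset.sum_congr rfl fun i _ => Finset.sum_congr rfl fun j _ => ?_
  simp only [eq_intCast]
  ring

theorem bil_self (G : Matrix (Fin n) (Fin n) ℤ) (x : Fin n → ℝ) :
    bil G x x = qf (re G) x := bil_eq G x x

theorem comb_eq (v : Fin r → Fin n → ℤ) (c : Fin r → ℝ) : comb v c = re (colM v) *ᵥ c := by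
  funext i
  unfold re colM comb
  simp only [mulVec, dotProduct, Matrix.map_apply, Matrix.transpose_apply, Matrix.of_apply,
    eq_intCast]
  exact Finset.sum_congr rfl fun k _ => mul_comm _ _

theorem img_eq (A : Matrix (Fin n) (Fin n) ℤ) (x : Fin n → ℝ) : img A x = re A *ᵥ x := by
  funext i
  unfold re img
  simp only [mulVec, dotProduct, Matrix.map_apply, eq_intCast]

theorem pont_of (G A : Matrix (Fin n) (Fin n) ℤ) (v : Fin r → Fin n → ℤ) (hG : Gᵀ = G)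
    (hneg : ∀ c : Fin r → ℝ, c ≠ 0 → bil G (comb v c) (comb v c) < 0)
    (hpos : ∀ x : Fin n → ℝ, x ≠ 0 → (∀ c, bil G (comb v c) x = 0) → 0 < bil G x x)
    (hA : ∀ x : Fin n → ℝ, bil G (img A x) (img A x) ≤ bil G x x) :
    Pont (re G) (re A) (re (colM v)) := by
  refine ⟨?_, fun c hc => ?_, fun x hx h => ?_, fun x => ?_⟩
  · rw [← re_transpose, hG]
  · have h1 := hneg c hc
    rw [comb_eq, bil_self] at h1
    exact h1
  · rw [← bil_self]
    refine hpos x hx fun c => ?_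
    rw [bil_eq, comb_eq, dotProduct_comm, dot_V, h, dotProduct_zero]
  · have h1 := hA x
    rw [img_eq, bil_self, bil_self] at h1
    exact h1

theorem gram_of (G : Matrix (Fin n) (Fin n) ℤ) (v : Fin r → Fin n → ℤ) :
    (colM v)ᵀ * G * colM v = gramZ G v := by
  ext i j
  unfold colM gramZ
  simp only [Matrix.mul_apply, Matrix.transpose_apply, Matrix.of_apply, Finset.sum_mul]
  rw [Finset.sum_comm]
  refine Finset.sum_congr rfl fun a _ => Finset.sum_congr rfl fun b _ => ?_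
  ring

theorem disp_of (G A : Matrix (Fin n) (Fin n) ℤ) (v : Fin r → Fin n → ℤ) (c : ℝ)
    (h : ∀ s t : Fin r → ℝ, bil G (comb v s) (img A (comb v t)) ^ 2 ≤
      c * (bil G (comb v s) (comb v s) * bil G (comb v t) (comb v t))) :
    Disp (re ((colM v)ᵀ * G * colM v)) (re ((colM v)ᵀ * G * A * colM v)) c := by
  intro s t
  have h1 := h s t
  rw [comb_eq, comb_eq, img_eq, bil_self, bil_self, bil_eq, qf_V, qf_V, gr_re] at h1
  have h2 : (re (colM v) *ᵥ s) ⬝ᵥ (re G *ᵥ (re A *ᵥ (re (colM v) *ᵥ t))) =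
      s ⬝ᵥ (re ((colM v)ᵀ * G * A * colM v) *ᵥ t) := by
    rw [← mm_re]
    unfold mm
    rw [dotProduct_comm, dot_V, mulVec_mulVec, mulVec_mulVec, mulVec_mulVec]
  rw [h2] at h1
  exact h1

/-- all conditions -/
theorem gap_of (r : ℕ) (c Δ : ℝ) : ∃ μ : ℝ, 1 < μ ∧ ∀ (n : ℕ) (G A : Matrix (Fin n) (Fin n) ℤ)
    (v : Fin r → Fin n → ℤ), Gᵀ = G →
    (∀ c : Fin r → ℝ, c ≠ 0 → bil G (comb v c) (comb v c) < 0) →
    (∀ x : Fin n → ℝ, x ≠ 0 → (∀ c, bil G (comb v c) x = 0) → 0 < bil G x x) →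
    (∀ x : Fin n → ℝ, bil G (img A x) (img A x) ≤ bil G x x) →
    |((gramZ G v).det : ℝ)| ≤ Δ →
    (∀ s t : Fin r → ℝ, bil G (comb v s) (img A (comb v t)) ^ 2 ≤
      c * (bil G (comb v s) (comb v s) * bil G (comb v t) (comb v t))) →
    m1 A.charpoly = 1 ∨ μ ≤ m1 A.charpoly := by
  obtain ⟨μ, hμ, h⟩ := iso_gap r c Δ
  refine ⟨μ, hμ, fun n G A v h1 h2 h3 h4 h5 h6 => ?_⟩
  refine h n G A (colM v) (pont_of G A v h1 h2 h3 h4) ?_ (disp_of G A v c h6)
  rw [gram_of]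
  exact h5

/-- the set of the measures -/
theorem closed_of (r : ℕ) (c Δ : ℝ) (T : Set ℝ) (hT : ∀ x ∈ T, ∃ (n : ℕ)
    (G A : Matrix (Fin n) (Fin n) ℤ) (v : Fin r → Fin n → ℤ), Gᵀ = G ∧
    (∀ c : Fin r → ℝ, c ≠ 0 → bil G (comb v c) (comb v c) < 0) ∧
    (∀ x : Fin n → ℝ, x ≠ 0 → (∀ c, bil G (comb v c) x = 0) → 0 < bil G x x) ∧
    (∀ x : Fin n → ℝ, bil G (img A x) (img A x) ≤ bil G x x) ∧
    |((gramZ G v).det : ℝ)| ≤ Δ ∧
    (∀ s t : Fin r → ℝ, bil G (comb v s) (img A (comb v t)) ^ 2 ≤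
      c * (bil G (comb v s) (comb v s) * bil G (comb v t) (comb v t))) ∧
    x = m1 A.charpoly) :
    closure T ⊆ Pool.Agent.W242.IM.allM ∧ ∃ m : ℕ, derivedSet^[m] T = ∅ := by
  refine iso_closed r c Δ T fun x hx => ?_
  obtain ⟨n, G, A, v, h1, h2, h3, h4, h5, h6, h7⟩ := hT x hx
  refine ⟨n, G, A, colM v, pont_of G A v h1 h2 h3 h4, ?_, disp_of G A v c h6, h7⟩
  rw [gram_of]
  exact h5

end

end Q262.FR
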