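import Mathlib
import Pool.Agent.Q262.FR.Own
import Pool.Agent.Y820.LB.Lor4

/-!
# Lorentzian lattices: isometries that move a negative lattice vector by a bounded amount
-/

set_option autoImplicit false

namespace Q262.FR

open Matrix Polynomial
open Pool.Agent.H261R2.CM
open Pool.Agent.Y820.LB

noncomputable section

variable {n : ℕ}

/-- the real vector of a lattice vector -/
def rv (v : Fin n → ℤ) : Fin n → ℝ := fun i => (v i : ℝ)

theorem bil_smul (G : Matrix (Fin n) (Fin n) ℤ) (a b : ℝ) (x y : Fin n → ℝ) :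
    bil G (a • x) (b • y) = a * b * bil G x y := by
  rw [bil_eq, bil_eq, mulVec_smul, dotProduct_smul, smul_dotProduct, smul_eq_mul, smul_eq_mul]
  ring

theorem bil_add_left (G : Matrix (Fin n) (Fin n) ℤ) (x y z : Fin n → ℝ) :
    bil G (x + y) z = bil G x z + bil G y z := by
  rw [bil_eq, bil_eq, bil_eq, add_dotProduct]

theorem bil_add_right (G : Matrix (Fin n) (Fin n) ℤ) (x y z : Fin n → ℝ) :
    bil G z (x + y) = bil G z x + bil G z y := by
  rw [bil_eq, bil_eq, bil_eq, mulVec_add, dotProduct_add]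

theorem bil_comm (G : Matrix (Fin n) (Fin n) ℤ) (hG : Gᵀ = G) (x y : Fin n → ℝ) :
    bil G x y = bil G y x := by
  rw [bil_eq, bil_eq]
  exact dot_symm (re G) (by rw [← re_transpose, hG]) y x

theorem img_smul (A : Matrix (Fin n) (Fin n) ℤ) (b : ℝ) (x : Fin n → ℝ) :
    img A (b • x) = b • img A x := by
  rw [img_eq, img_eq, mulVec_smul]

theorem comb_one (v : Fin n → ℤ) (c : Fin 1 → ℝ) : comb (fun _ : Fin 1 => v) c = c 0 • rv v := by
  funext i
  simp [comb, rv]

/-- the value of the form at a lattice vector is an integer -/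
theorem bil_int (G : Matrix (Fin n) (Fin n) ℤ) (v : Fin n → ℤ) :
    bil G (rv v) (rv v) = ((gramZ G (fun _ : Fin 1 => v)).det : ℝ) := by
  unfold gramZ bil rv
  simp

/-- the case of one negative square -/
theorem gap_vec (L : ℝ) : ∃ μ : ℝ, 1 < μ ∧ ∀ (n : ℕ) (G A : Matrix (Fin n) (Fin n) ℤ)
    (v : Fin n → ℤ), Gᵀ = G → bil G (rv v) (rv v) < 0 →
    (∀ x : Fin n → ℝ, x ≠ 0 → bil G (rv v) x = 0 → 0 < bil G x x) →
    (∀ x : Fin n → ℝ, bil G (img A x) (img A x) ≤ bil G x x) →
    |bil G (rv v) (img A (rv v))| ≤ L → m1 A.charpoly = 1 ∨ μ ≤ m1 A.charpoly := by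
  obtain ⟨μ, hμ, h⟩ := gap_of 1 (L ^ 2) L
  refine ⟨μ, hμ, fun n G A v hG hv hpos hA hL => ?_⟩
  have hvv : bil G (rv v) (rv v) ≤ -1 := by
    rw [bil_int] at hv ⊢
    have h1 : (gramZ G (fun _ : Fin 1 => v)).det < 0 := by exact_mod_cast hv
    have h2 : (gramZ G (fun _ : Fin 1 => v)).det ≤ -1 := by omega
    exact_mod_cast h2
  refine h n G A (fun _ => v) hG (fun c hc => ?_) (fun x hx hc => ?_) hA ?_ (fun s t => ?_)
  · rw [comb_one, bil_smul]
    have h1 : c 0 ≠ 0 := by
      intro h0
      apply hc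
      funext i
      rw [Subsingleton.elim i 0, h0]
      rfl
    have h2 : 0 < c 0 * c 0 := mul_self_pos.mpr h1
    nlinarith
  · refine hpos x hx ?_
    have h1 := hc 1
    rw [comb_one] at h1
    simpa using h1
  · rw [← bil_int, abs_of_neg hv]
    -- `(v, v)` is bounded by `(v, A v)`
    obtain ⟨a, ha⟩ : ∃ a, a = bil G (rv v) (img A (rv v)) / bil G (rv v) (rv v) := ⟨_, rfl⟩
    have h13 : bil G (rv v) (img A (rv v)) = a * bil G (rv v) (rv v) := by
      rw [ha, div_mul_cancel₀ _ hv.ne]
    obtain ⟨w, hw⟩ : ∃ w, w = img A (rv v) + (-a) • rv v := ⟨_, rfl⟩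
    have h1 : bil G (rv v) w = 0 := by
      rw [hw, bil_add_right]
      have h2 : bil G (rv v) ((-a) • rv v) = -a * bil G (rv v) (rv v) := by
        have h3 := bil_smul G 1 (-a) (rv v) (rv v)
        rw [one_smul, one_mul] at h3
        exact h3
      rw [h2, h13]
      ring
    have h4 : 0 ≤ bil G w w := by
      by_cases hw0 : w = 0
      · rw [hw0, bil_self, qf_zero]
      · exact (hpos w hw0 h1).le
    have h5 : img A (rv v) = w + a • rv v := by
      rw [hw, neg_smul, neg_add_cancel_right]
    have h6 := hA (rv v)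
    rw [h5, bil_add_left, bil_add_right, bil_add_right, bil_smul] at h6
    have h7 : bil G w (a • rv v) = 0 := by
      rw [bil_comm G hG]
      have h3 := bil_smul G a 1 (rv v) w
      rw [one_smul, h1, mul_zero] at h3
      exact h3
    have h8 : bil G (a • rv v) w = 0 := by
      rw [bil_comm G hG]
      exact h7
    rw [h7, h8] at h6
    have h9 : 1 ≤ a * a := by
      by_contra hcon
      push Not at hcon
      nlinarith
    have h10 : 1 ≤ |a| := by
      by_contra hcon
      push Not at hcon
      have h11 := abs_nonneg a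
      have h12 : a * a = |a| * |a| := (abs_mul_abs_self a).symm
      nlinarith
    rw [h13, abs_mul, abs_of_neg hv] at hL
    nlinarith
  · rw [comb_one, comb_one, img_smul, bil_smul, bil_smul, bil_smul]
    have h1 : (bil G (rv v) (img A (rv v))) ^ 2 ≤ L ^ 2 := by
      rw [← sq_abs]
      exact pow_le_pow_left₀ (abs_nonneg _) hL 2
    have h2 : 1 ≤ bil G (rv v) (rv v) * bil G (rv v) (rv v) := by nlinarith
    have h3 : 0 ≤ (s 0 * t 0) ^ 2 := sq_nonneg _
    have h4 : (s 0 * t 0 * bil G (rv v) (img A (rv v))) ^ 2 =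
        (s 0 * t 0) ^ 2 * (bil G (rv v) (img A (rv v))) ^ 2 := by ring
    have h5 : L ^ 2 * (s 0 * s 0 * bil G (rv v) (rv v) * (t 0 * t 0 * bil G (rv v) (rv v))) =
        (s 0 * t 0) ^ 2 * (L ^ 2 * (bil G (rv v) (rv v) * bil G (rv v) (rv v))) := by ring
    rw [h4, h5]
    refine mul_le_mul_of_nonneg_left (h1.trans ?_) h3
    have h6 : 0 ≤ L ^ 2 := sq_nonneg _
    nlinarith

theorem rf_eq_bil (G : Matrix (Fin n) (Fin n) ℤ) (x y : Fin n → ℝ) : rf G x y = bil G x y := by
  unfold rf bil
  exact Finset.sum_congr rfl fun i _ => Finset.sum_congr rfl fun j _ => by ring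

theorem bil_img (G A : Matrix (Fin n) (Fin n) ℤ) (h : Aᵀ * G * A = G) (x y : Fin n → ℝ) :
    bil G (img A x) (img A y) = bil G x y := by
  rw [img_eq, img_eq, bil_eq, bil_eq, dotProduct_comm, dot_V, mulVec_mulVec, mulVec_mulVec,
    ← re_transpose, ← re_mul, ← re_mul, h]

/-- the complement of a negative vector is positive definite -/
theorem pos_of_lor (G : Matrix (Fin n) (Fin n) ℤ) (hG : Gᵀ = G) (e f v : Fin n → ℝ)
    (hee : bil G e e = 0) (hff : bil G f f = 0) (hef : bil G e f ≠ 0)
    (hpos : ∀ x : Fin n → ℝ, x ≠ 0 → bil G e x = 0 → bil G f x = 0 → 0 < bil G x x)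
    (hv : bil G v v < 0) (x : Fin n → ℝ) (hx : x ≠ 0) (hvx : bil G v x = 0) : 0 < bil G x x := by
  set h := bil G e f with hh
  have hfe : bil G f e = h := bil_comm G hG f e
  -- decomposition
  have hdec : ∀ y : Fin n → ℝ, ∃ (s t : ℝ) (z : Fin n → ℝ), y = s • e + t • f + z ∧
      bil G e z = 0 ∧ bil G f z = 0 := by
    intro y
    refine ⟨bil G f y / h, bil G e y / h, y - ((bil G f y / h) • e + (bil G e y / h) • f),
      by abel, ?_, ?_⟩
    · have h1 : y - ((bil G f y / h) • e + (bil G e y / h) • f) =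
          y + ((-(bil G f y / h)) • e + (-(bil G e y / h)) • f) := by
        rw [neg_smul, neg_smul]
        abel
      have h2 := bil_smul G 1 (-(bil G f y / h)) e e
      have h3 := bil_smul G 1 (-(bil G e y / h)) e f
      rw [one_smul] at h2 h3
      rw [h1, bil_add_right, bil_add_right, h2, h3, hee, ← hh]
      field_simp
      ring
    · have h1 : y - ((bil G f y / h) • e + (bil G e y / h) • f) =
          y + ((-(bil G f y / h)) • e + (-(bil G e y / h)) • f) := by
        rw [neg_smul, neg_smul]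
        abel
      have h2 := bil_smul G 1 (-(bil G f y / h)) f e
      have h3 := bil_smul G 1 (-(bil G e y / h)) f f
      rw [one_smul] at h2 h3
      rw [h1, bil_add_right, bil_add_right, h2, h3, hff, hfe]
      field_simp
      ring
  have hval : ∀ (a b s t : ℝ) (z w : Fin n → ℝ), bil G e z = 0 → bil G f z = 0 →
      bil G e w = 0 → bil G f w = 0 →
      bil G (a • e + b • f + z) (s • e + t • f + w) = (a * t + b * s) * h + bil G z w := by
    intro a b s t z w h1 h2 h3 h4
    have k1 := bil_smul G a s e e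
    have k2 := bil_smul G a t e f
    have k3 := bil_smul G b s f e
    have k4 := bil_smul G b t f f
    have k5 := bil_smul G a 1 e w
    have k6 := bil_smul G b 1 f w
    have k7 := bil_smul G 1 s z e
    have k8 := bil_smul G 1 t z f
    rw [one_smul] at k5 k6 k7 k8
    rw [bil_comm G hG z e, h1] at k7
    rw [bil_comm G hG z f, h2] at k8
    rw [h3] at k5
    rw [h4] at k6
    simp only [bil_add_left, bil_add_right, k1, k2, k3, k4, k5, k6, k7, k8, hee, hff, hfe]
    rw [← hh]
    ring
  obtain ⟨a, b, z, hvz, hz1, hz2⟩ := hdec v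
  obtain ⟨s, t, w, hxw, hw1, hw2⟩ := hdec x
  have hnn : ∀ y : Fin n → ℝ, bil G e y = 0 → bil G f y = 0 → 0 ≤ bil G y y := by
    intro y hy1 hy2
    by_cases h0 : y = 0
    · rw [h0, bil_self, qf_zero]
    · exact (hpos y h0 hy1 hy2).le
  -- the Cauchy-Schwarz inequality on the complement
  have hcs : bil G z w ^ 2 ≤ bil G z z * bil G w w := by
    have h1 : ∀ p q : ℝ, 0 ≤ p * p * bil G z z + 2 * (p * q) * bil G z w + q * q * bil G w w := by
      intro p q
      have h2 := hnn (p • z + q • w) (by
        rw [bil_add_right]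
        have k1 := bil_smul G 1 p e z
        have k2 := bil_smul G 1 q e w
        rw [one_smul] at k1 k2
        rw [k1, k2, hz1, hw1]
        ring) (by
        rw [bil_add_right]
        have k1 := bil_smul G 1 p f z
        have k2 := bil_smul G 1 q f w
        rw [one_smul] at k1 k2
        rw [k1, k2, hz2, hw2]
        ring)
      rw [bil_add_left, bil_add_right, bil_add_right, bil_smul, bil_smul, bil_smul, bil_smul,
        bil_comm G hG w z] at h2
      linarith
    have h3 := hnn z hz1 hz2
    have h4 := hnn w hw1 hw2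
    have h5 := h1 (bil G w w) (-(bil G z w))
    have h6 := h1 (bil G z w) (-(bil G z z))
    by_cases h7 : bil G w w = 0
    · by_cases h8 : bil G z z = 0
      · have h9 := h1 1 (-(bil G z w))
        rw [h7, h8] at h9
        rw [h7, h8]
        nlinarith
      · have h10 : 0 < bil G z z := lt_of_le_of_ne h3 (Ne.symm h8)
        nlinarith
    · have h10 : 0 < bil G w w := lt_of_le_of_ne h4 (Ne.symm h7)
      nlinarith
  have e1 := hval a b a b z z hz1 hz2 hz1 hz2
  have e2 := hval a b s t z w hz1 hz2 hw1 hw2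
  have e3 := hval s t s t w w hw1 hw2 hw1 hw2
  rw [← hvz] at e1
  rw [← hvz, ← hxw, hvx] at e2
  rw [← hxw] at e3
  by_contra hcon
  push Not at hcon
  have h3 := hnn z hz1 hz2
  have h4 := hnn w hw1 hw2
  rw [e1] at hv
  rw [e3] at hcon
  have g1 : bil G z z < -(2 * (a * b) * h) := by linarith
  have g2 : bil G w w ≤ -(2 * (s * t) * h) := by linarith
  have g3 : ((a * t + b * s) * h) ^ 2 ≤ bil G z z * bil G w w := by
    have : (a * t + b * s) * h = -bil G z w := by linarith
    rw [this, neg_sq]
    exact hcs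
  have g4 : bil G z z * bil G w w ≤ (-(2 * (a * b) * h)) * (-(2 * (s * t) * h)) := by
    have g5 : 0 ≤ -(2 * (s * t) * h) := h4.trans g2
    nlinarith
  have hh2 : 0 < h ^ 2 := by positivity
  have g6 : ((a * t - b * s) * h) ^ 2 ≤ 0 := by nlinarith
  have g7 : (a * t - b * s) * h = 0 := by nlinarith [sq_nonneg ((a * t - b * s) * h)]
  have g8 : a * t = b * s := by
    rcases mul_eq_zero.mp g7 with g | g
    · linarith
    · exact absurd g hef
  have g9 : -(2 * (s * t) * h) = 0 := by
    by_contra g10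
    have g11 : 0 < -(2 * (s * t) * h) := lt_of_le_of_ne (h4.trans g2) (Ne.symm g10)
    have g12 : bil G z z * bil G w w < (-(2 * (a * b) * h)) * (-(2 * (s * t) * h)) := by nlinarith
    have g13 : ((a * t + b * s) * h) ^ 2 = (-(2 * (a * b) * h)) * (-(2 * (s * t) * h)) := by
      have : (a * t + b * s) ^ 2 = 4 * (a * b) * (s * t) := by
        have g14 : (a * t + b * s) ^ 2 = (a * t - b * s) ^ 2 + 4 * (a * b) * (s * t) := by ring
        rw [g14, g8]
        ring
      calc ((a * t + b * s) * h) ^ 2 = (a * t + b * s) ^ 2 * h ^ 2 := by ring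
        _ = _ := by rw [this]; ring
    linarith
  have g15 : s * t = 0 := by
    by_contra g16
    apply g16
    have : s * t * h = 0 := by linarith
    rcases mul_eq_zero.mp this with g | g
    · exact g
    · exact absurd g hef
  have g17 : a ≠ 0 := by
    rintro rfl
    linarith
  have g18 : b ≠ 0 := by
    rintro rfl
    linarith
  have g19 : s = 0 ∧ t = 0 := by
    rcases mul_eq_zero.mp g15 with g | g
    · refine ⟨g, ?_⟩
      rw [g, mul_zero] at g8
      exact (mul_eq_zero.mp g8).resolve_left g17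
    · refine ⟨?_, g⟩
      rw [g, mul_zero] at g8
      exact (mul_eq_zero.mp g8.symm).resolve_left g18
  have g20 : x = w := by
    rw [hxw, g19.1, g19.2]
    simp
  have g21 := hpos x hx (by rw [g20]; exact hw1) (by rw [g20]; exact hw2)
  rw [e3] at g21
  linarith

/-- **Salem numbers** from isometries of Lorentzian lattices with small displacement -/
theorem lor_disp (L : ℝ) : ∃ μ : ℝ, 1 < μ ∧ ∀ (n : ℕ) (G A : Matrix (Fin n) (Fin n) ℤ)
    (e f : Fin n → ℝ) (β : ℝ) (v : Fin n → ℤ), Gᵀ = G → Aᵀ * G * A = G → 1 < β →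
    img A e = β • e → img A f = β⁻¹ • f →
    (∀ x : Fin n → ℝ, x ≠ 0 → bil G e x = 0 → bil G f x = 0 → 0 < bil G x x) →
    bil G (rv v) (rv v) < 0 → |bil G (rv v) (img A (rv v))| ≤ L → μ ≤ β := by
  obtain ⟨μ, hμ, h⟩ := gap_vec L
  refine ⟨μ, hμ, fun n G A e f β v hG hA hβ he hf hpos hv hL => ?_⟩
  have hee : bil G e e = 0 := by
    have h1 := bil_img G A hA e e
    rw [he, bil_smul] at h1
    have h2 : (β * β - 1) * bil G e e = 0 := by linarith
    rcases mul_eq_zero.mp h2 with h3 | h3
    · nlinarith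
    · exact h3
  have hff : bil G f f = 0 := by
    have h1 := bil_img G A hA f f
    rw [hf, bil_smul] at h1
    have h2 : (β⁻¹ * β⁻¹ - 1) * bil G f f = 0 := by linarith
    have h4 : β⁻¹ < 1 := inv_lt_one_of_one_lt₀ hβ
    have h5 : 0 < β⁻¹ := by positivity
    rcases mul_eq_zero.mp h2 with h3 | h3
    · nlinarith
    · exact h3
  have hef : bil G e f ≠ 0 := by
    intro h0
    have h1 : e = 0 := by
      by_contra hcon
      have h2 := hpos e hcon hee (by rw [bil_comm G hG]; exact h0)
      linarith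
    have h3 : f = 0 := by
      by_contra hcon
      have h2 := hpos f hcon h0 hff
      linarith
    have h4 : rv v ≠ 0 := by
      intro h5
      rw [h5, bil_self, qf_zero] at hv
      exact lt_irrefl _ hv
    have h5 := hpos (rv v) h4 (by rw [h1, bil_eq, zero_dotProduct])
      (by rw [h3, bil_eq, zero_dotProduct])
    linarith
  have hM := h n G A v hG hv (fun x hx hvx => pos_of_lor G hG e f (rv v) hee hff hef hpos hv x hx hvx)
    (fun x => (bil_img G A hA x x).le) hL
  have hlz := lz_of G A e f β hG hA hβ (by rw [← he, img_eq]; rfl) (by rw [← hf, img_eq]; rfl)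
    (by rw [rf_eq_bil]; exact hef) (by
      intro x hx h1 h2
      rw [rf_eq_bil] at h1 h2 ⊢
      exact hpos x hx h1 h2)
  have hm : m1 A.charpoly = β := by
    have h1 := hlz.mahler
    rw [Matrix.charpoly_map] at h1
    exact h1
  rw [hm] at hM
  rcases hM with h1 | h1
  · linarith
  · exact h1

end

end Q262.FR
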