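import Mathlib
import Pool.Agent.Q262.FR.Own
import Pool.Agent.H225R3.Marg4
import Pool.Agent.H225R3.Marg5

/-!
# Groups acting on integral lattices with `q` negative squares: small elements near rational planes
-/

set_option autoImplicit false

namespace Q262.FR

open Matrix Polynomial
open Pool.Agent.H261R2.CM
open Pool.Agent.Y820.LB

noncomputable section

/-- comparison of Mahler measures through the large roots -/
theorem mahler_le_of_roots (P : ℂ[X]) (Q : ℂ[X]) (hP : P.Monic) (hQ : Q ≠ 0) (R : ℝ) (hR : 1 ≤ R)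
    (h : ∀ z : ℂ, 1 < ‖z‖ → P.rootMultiplicity z ≤ Q.rootMultiplicity z)
    (hz : ∀ z : ℂ, Q.IsRoot z → ‖z‖ ≤ R) : P.mahlerMeasure ≤ R ^ Q.natDegree := by
  classical
  rw [mahlerMeasure_eq_leadingCoeff_mul_prod_roots, hP.leadingCoeff, norm_one, one_mul]
  set s := P.roots.filter fun z => 1 < ‖z‖ with hs
  have h1 : (P.roots.map fun a => max 1 ‖a‖).prod = (s.map fun a => max 1 ‖a‖).prod := by
    have h2 := Multiset.filter_add_not (fun z : ℂ => 1 < ‖z‖) P.roots
    conv_lhs => rw [← h2]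
    rw [Multiset.map_add, Multiset.prod_add]
    have h3 : ((P.roots.filter fun z => ¬ 1 < ‖z‖).map fun a => max 1 ‖a‖) =
        (P.roots.filter fun z => ¬ 1 < ‖z‖).map fun _ => (1:ℝ) := by
      refine Multiset.map_congr rfl fun z hz => ?_
      have h4 := (Multiset.mem_filter.mp hz).2
      exact max_eq_left (not_lt.mp h4)
    rw [h3, Multiset.map_const', Multiset.prod_replicate, one_pow, mul_one]
  have hle : s ≤ Q.roots := by
    rw [Multiset.le_iff_count]
    intro z
    rw [hs, Multiset.count_filter]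
    split_ifs with h5
    · rw [count_roots, count_roots]
      exact h z h5
    · exact Nat.zero_le _
  have h6 : ∀ t : Multiset ℂ, (∀ z ∈ t, ‖z‖ ≤ R) → (t.map fun a => max 1 ‖a‖).prod ≤ R ^ t.card := by
    intro t
    induction t using Multiset.induction_on with
    | empty => intro _; simp
    | cons a t ih =>
      intro ht
      rw [Multiset.map_cons, Multiset.prod_cons, Multiset.card_cons, pow_succ, mul_comm (R ^ _)]
      have h7 := ih fun z hz => ht z (Multiset.mem_cons_of_mem hz)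
      have h8 := ht a (Multiset.mem_cons_self a t)
      have h9 : 0 ≤ (t.map fun a => max 1 ‖a‖).prod := by
        refine Multiset.prod_nonneg fun x hx => ?_
        obtain ⟨y, _, rfl⟩ := Multiset.mem_map.mp hx
        positivity
      exact mul_le_mul (max_le hR h8) h7 h9 (by linarith)
  rw [h1]
  refine (h6 s fun z hzs => hz z ?_).trans ?_
  · exact (mem_roots hQ).mp (Multiset.mem_of_le hle hzs)
  · refine pow_le_pow_right₀ hR ((Multiset.card_le_card hle).trans (card_roots' Q))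

/-- if the measure is one then some power is unipotent -/
theorem nil_of_one {n : ℕ} (A : Matrix (Fin n) (Fin n) ℤ) (hA : IsUnit A) (h : m1 A.charpoly = 1) :
    ∃ N : ℕ, 0 < N ∧ IsNilpotent (A ^ N - 1) := by
  refine Pool.Agent.H225R3.Marg.nilp_of_roots (Int.castRingHom ℂ)
    (RingHom.injective_int _) A fun l hl => ?_
  have hP0 : A.charpoly ≠ 0 := (Matrix.charpoly_monic A).ne_zero
  have hl2 : ((Int.castRingHom ℂ).mapMatrix A).charpoly.IsRoot l := by
    rw [RingHom.mapMatrix_apply, Matrix.charpoly_map]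
    exact hl
  have hl0 : l ≠ 0 := by
    rintro rfl
    rw [← Matrix.mem_spectrum_iff_isRoot_charpoly, spectrum.zero_mem_iff] at hl2
    exact hl2 (hA.map _)
  refine pow_eq_one_of_mahlerMeasure_eq_one (p := A.charpoly) h hl0 ?_
  rw [mem_aroots]
  refine ⟨hP0, ?_⟩
  rw [aeval_def]
  rw [IsRoot.def, eval_map] at hl
  exact hl

/-- **small elements near rational planes** -/
theorem near_gap (q : ℕ) (c Δ : ℝ) (M : ℕ) : ∃ ε : ℝ, 0 < ε ∧ ∀ (n : ℕ)
    (F A : Matrix (Fin n) (Fin n) ℤ) (v : Fin q → Fin n → ℤ) (B : Matrix (Fin M) (Fin M) ℂ),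
    Fᵀ = F → (∀ c : Fin q → ℝ, c ≠ 0 → bil F (comb v c) (comb v c) < 0) →
    (∀ x : Fin n → ℝ, x ≠ 0 → (∀ c, bil F (comb v c) x = 0) → 0 < bil F x x) →
    (∀ x : Fin n → ℝ, bil F (img A x) (img A x) ≤ bil F x x) →
    |((gramZ F v).det : ℝ)| ≤ Δ →
    (∀ s t : Fin q → ℝ, bil F (comb v s) (img A (comb v t)) ^ 2 ≤
      c * (bil F (comb v s) (comb v s) * bil F (comb v t) (comb v t))) →
    (∀ z : ℂ, 1 < ‖z‖ → (toC A.charpoly).rootMultiplicity z ≤ B.charpoly.rootMultiplicity z) →
    (∀ i j, ‖(B - 1) i j‖ < ε / (M + 1)) → IsUnit A → ∃ N : ℕ, 0 < N ∧ IsNilpotent (A ^ N - 1) := by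
  obtain ⟨μ, hμ, h⟩ := gap_of q c Δ
  obtain ⟨ε, hε, hεc⟩ : ∃ ε : ℝ, 0 < ε ∧ (1 + ε) ^ M < μ := by
    have h1 : Filter.Tendsto (fun x : ℝ => (1 + x) ^ M) (nhdsWithin 0 (Set.Ioi 0)) (nhds 1) := by
      have h2 : Continuous fun x : ℝ => (1 + x) ^ M := by fun_prop
      have h3 := h2.tendsto 0
      simp only [add_zero, one_pow] at h3
      exact h3.mono_left nhdsWithin_le_nhds
    have h4 := (h1.eventually (gt_mem_nhds hμ)).and self_mem_nhdsWithin
    obtain ⟨x, hx1, hx2⟩ := h4.exists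
    exact ⟨x, hx2, hx1⟩
  refine ⟨ε, hε, fun n F A v B h1 h2 h3 h4 h5 h6 h7 h8 hA => nil_of_one A hA ?_⟩
  have h9 : m1 A.charpoly < μ := by
    unfold m1
    refine lt_of_le_of_lt (mahler_le_of_roots _ B.charpoly
      ((Matrix.charpoly_monic A).map _) (Matrix.charpoly_monic B).ne_zero (1 + ε) (by linarith)
      h7 fun z hz => ?_) ?_
    · have h10 := Pool.Agent.H225R3.Marg.close_eig B ε hε h8 z hz
      have h11 : ‖z‖ ≤ ‖z - 1‖ + ‖(1 : ℂ)‖ := by
        have := norm_add_le (z - 1) 1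
        rwa [sub_add_cancel] at this
      rw [norm_one] at h11
      linarith
    · rw [Matrix.charpoly_natDegree_eq_dim, Fintype.card_fin]
      exact hεc
  rcases h n F A v h1 h2 h3 h4 h5 h6 with h10 | h10
  · exact h10
  · exact absurd h9 (not_lt.mpr h10)

end

end Q262.FR
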